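import Pool.Agent.Run7.h943.FP.IEX

set_option autoImplicit false
open MeasureTheory ProbabilityTheory Filter Set
open scoped ENNReal Pointwise Topology

namespace Run7.h943.FP.IEX
open Pool.Agent.N662.FP Run7.h943.FP

theorem exC (hGEO : S_GEO) (μ : Seminorm ℝ (ℝ × ℝ)) (h0 : ∀ x, μ x = 0 → x = 0) (y : ℝ × ℝ)
    (hy : y.1 ^ 2 + y.2 ^ 2 = 1) : ∃ Cm : ℝ, 0 ≤ Cm ∧ ∀ x, μ x ≤ Cm * eu x := by
  obtain ⟨c, C, hc, hC, h⟩ := cNORM μ h0
  refine ⟨C, hC.le, fun x => (h x).2.trans ?_⟩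
  obtain ⟨-, -, -, -, -, h6⟩ := hGEO y hy
  obtain ⟨-, -, c3, c4, -⟩ := h6 x
  exact mul_le_mul_of_nonneg_left (max_le c3 c4) hC.le

theorem t_IEX (hGEO : S_GEO) (hLOW : S_LOW) (hTRL : S_TRL) : S_IEX := by
  intro Ω _ _ X hX μ hG y m hM κ A d hκ1 hκ2 hA hd hone η hη
  obtain ⟨Cm, hC0, hC⟩ := exC hGEO μ hG.norm y hM.unit
  have hm := hM.pos
  set χ := 1 - κ with hχ
  have hχ0 : 0 < χ := by linarith
  have hχ1 : χ < 1 / 5 := by linarith
  set χ' := (χ + 1 / 5) / 2 with hχ'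
  have h1 : χ < χ' := by linarith
  have h2 : χ' < 1 / 5 := by linarith
  clear_value χ χ'
  set C1 := 1 + 34 * (m + Cm) with hC1
  have hC1p : 0 < C1 := by positivity
  set C2 := A * C1 ^ χ with hC2
  have hC2p : 0 < C2 := by positivity
  filter_upwards [ev_pow 0 (3 / 5) 12 (by norm_num), ev_pow χ χ' (2 * C2) h1,
    ev_pow χ' (1 / 5) (400 / m) h2, ev_pow 0 (1 / 5) ((10 * m + 6 * Cm) * 100 / m) (by norm_num),
    ev_exp (1156 * 4) (d / (2 * C2)) (χ' - χ) (η / 3) (by positivity) (by linarith) (by positivity),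
    ev_exp (1156 * Real.exp 1) (m / 4) 1 (η / 3) (by positivity) one_pos (by positivity),
    ev_pow χ χ' (24 * (1 + 1 / d) * C2 / η) h1, eventually_ge_atTop 1]
    with n g1 g2 g3 g4 g5 g6 g7 hn u hu1 hu2
  have hn' : (1 : ℝ) ≤ n := by exact_mod_cast hn
  have hn0 : (0 : ℝ) < n := by linarith
  rw [Real.rpow_zero, mul_one] at g1 g4
  rw [Real.rpow_one] at g6
  set w := (n : ℝ) ^ (3 / 5 : ℝ) with hw
  set g := (n : ℝ) ^ χ' with hg
  have hgp : 0 < g := by positivity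
  set P5 := (n : ℝ) ^ (1 / 5 : ℝ) with hP5
  have hwn : w ≤ n := by
    calc w ≤ (n : ℝ) ^ (1 : ℝ) := Real.rpow_le_rpow_of_exponent_le hn' (by norm_num)
      _ = n := Real.rpow_one _
  have hw2 : w ^ 2 = P5 * n := by
    rw [hw, hP5, ← Real.rpow_natCast, ← Real.rpow_mul hn0.le]
    conv_rhs => rw [← Real.rpow_one (n : ℝ)]
    rw [Real.rpow_one, ← Real.rpow_add_one hn0.ne']
    norm_num
  have hP5n : P5 ≤ n := by
    calc P5 ≤ (n : ℝ) ^ (1 : ℝ) := Real.rpow_le_rpow_of_exponent_le hn' (by norm_num)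
      _ = n := Real.rpow_one _
  have hR : A * (1 + 34 * (m + Cm) * n) ^ χ ≤ C2 * (n : ℝ) ^ χ := by
    have e0 : C2 * (n : ℝ) ^ χ = A * (C1 * n) ^ χ := by
      rw [hC2, Real.mul_rpow hC1p.le hn0.le, mul_assoc]
    rw [e0]
    apply mul_le_mul_of_nonneg_left _ hA.le
    apply Real.rpow_le_rpow (by positivity) _ hχ0.le
    rw [hC1]
    nlinarith [mul_nonneg (add_nonneg hm.le hC0) hn0.le]
  have hu : |al y (em u) - n| ≤ 2 ∧ |cr y (em u)| ≤ 2 := by
    have := near hM.unit (n : ℝ) 0 u (by simpa using hu1) (by simpa using hu2)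
    simpa using this
  have hfix := fixed hGEO hLOW hTRL hX hG y m Cm hM hC hC0 χ A d hχ0 hA hd hone n hn w g
    (C2 * (n : ℝ) ^ χ) (m / 200 * P5) g1 hwn hR (by linarith) ?_ ?_ u hu
  · refine hfix.trans ?_
    obtain ⟨h1', -, -, -, -, -⟩ := hGEO y hM.unit
    obtain ⟨-, -, hcard, -, -, -⟩ := h1' (8 * n) w (by positivity)
    have hcard' : ((bd (tube y (8 * n) w)).card : ℝ) ≤ 1156 * (n : ℝ) ^ 2 := by
      refine hcard.trans ?_
      push_cast
      nlinarith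
    have e1 : Real.exp (-(d * (g / 2) / (C2 * (n : ℝ) ^ χ))) =
        Real.exp (-(d / (2 * C2) * (n : ℝ) ^ (χ' - χ))) := by
      congr 2
      rw [Real.rpow_sub hn0, hg]
      have : (0 : ℝ) < (n : ℝ) ^ χ := by positivity
      field_simp
    have e3 : Real.exp (1 - 8 * m * n / 32) = Real.exp 1 * Real.exp (-(m / 4 * (n : ℝ))) := by
      rw [← Real.exp_add]
      congr 1
      ring
    rw [e1, e3]
    have e4 : 4 * (2 * (1 + 1 / d) * (C2 * (n : ℝ) ^ χ) / g) ≤ η / 3 := by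
      have e5 : 4 * (2 * (1 + 1 / d) * (C2 * (n : ℝ) ^ χ) / g) =
          (24 * (1 + 1 / d) * C2 / η * (n : ℝ) ^ χ) * (η / 3) / g := by
        field_simp
        ring
      rw [e5, div_le_iff₀ hgp]
      calc (24 * (1 + 1 / d) * C2 / η * (n : ℝ) ^ χ) * (η / 3) ≤ g * (η / 3) :=
            mul_le_mul_of_nonneg_right g7 (by positivity)
        _ = η / 3 * g := by ring
    have e6 : ((bd (tube y (8 * n) w)).card : ℝ) * (4 * Real.exp (-(d / (2 * C2) * (n : ℝ) ^ (χ' - χ))) +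
        Real.exp 1 * Real.exp (-(m / 4 * (n : ℝ)))) ≤
        1156 * (n : ℝ) ^ 2 * (4 * Real.exp (-(d / (2 * C2) * (n : ℝ) ^ (χ' - χ))) +
        Real.exp 1 * Real.exp (-(m / 4 * (n : ℝ)))) :=
      mul_le_mul_of_nonneg_right hcard' (by positivity)
    have e7 : 1156 * (n : ℝ) ^ 2 * (4 * Real.exp (-(d / (2 * C2) * (n : ℝ) ^ (χ' - χ))) +
        Real.exp 1 * Real.exp (-(m / 4 * (n : ℝ)))) =
        1156 * 4 * (n : ℝ) ^ 2 * Real.exp (-(d / (2 * C2) * (n : ℝ) ^ (χ' - χ))) +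
        1156 * Real.exp 1 * (n : ℝ) ^ 2 * Real.exp (-(m / 4 * (n : ℝ))) := by ring
    rw [e7] at e6
    linarith
  · have e1 : m * w ^ 2 / (39 * n) = m * P5 / 39 := by
      rw [hw2]
      field_simp
    rw [e1]
    have e2 : 4 * g ≤ m / 100 * P5 := by
      have := mul_le_mul_of_nonneg_left g3 (by positivity : (0 : ℝ) ≤ m / 100)
      have e3 : m / 100 * (400 / m * g) = 4 * g := by field_simp; norm_num
      rw [e3] at this
      exact this
    have e4 : 10 * m + 6 * Cm ≤ m / 100 * P5 := by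
      have := mul_le_mul_of_nonneg_left g4 (by positivity : (0 : ℝ) ≤ m / 100)
      have e3 : m / 100 * ((10 * m + 6 * Cm) * 100 / m) = 10 * m + 6 * Cm := by field_simp
      rw [e3] at this
      exact this
    have e5 : 0 ≤ m * P5 := by positivity
    linarith
  · have e5 : m * P5 ≤ m * n := mul_le_mul_of_nonneg_left hP5n hm.le
    have e6 : 0 ≤ m * n := by positivity
    linarith

end Run7.h943.FP.IEX
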