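import Pool.Agent.Run7.h943.FP.Fin
import Pool.Agent.Run7.h943.FP.IEXb
import Pool.Agent.Run7.h376.FP.HALF
import Pool.Agent.Run7.h376.FP.OUTF
import Pool.Agent.Run7.h376.FP.POLY
import Pool.Agent.Run7.h376.FP.SPL
import Pool.Agent.Run7.h382.FP.INNF
import Pool.Agent.Run7.h637.FP.LTO
import Pool.Agent.Run7.h637.FP.RT
import Pool.Agent.Run7.h24.FP.OEX
import Pool.Agent.Run7.h921.FP.CM
import Pool.Agent.Run7.h921.FP.EX
import Pool.Agent.Run7.h921.FP.SPD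
import Pool.Agent.Run7.h216.FP.LIM
import Pool.Agent.Run7.h216.FP.DIR
import Pool.Agent.Run7.h216.FP.GEO
import Pool.Agent.Run7.h594.FP.LOW
import Pool.Agent.Run7.h594.FP.TWO
import Pool.Agent.Run7.h416.FP.SQ

set_option autoImplicit false
open MeasureTheory ProbabilityTheory Filter Set
open scoped ENNReal Pointwise Topology

namespace Run7.h943.FP
open Pool.Agent.N662.FP

theorem cTWO : S_TWO := Run7.h594.FP.t_TWO Run7.h416.FP.t_SQ
theorem cPMU : S_PMU := Run7.h594.FP.t_PMU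
theorem cTRL : S_TRL := Run7.h594.FP.t_TRL
theorem cLOW : S_LOW := Run7.h594.FP.t_LOW cTWO cPMU
theorem cCMD : S_CMD := Run7.h921.FP.t_CMD Run7.h921.FP.t_CM
theorem cSPL : S_SPL := Run7.h376.FP.t_SPL Run7.h921.FP.t_SPD cLOW cTRL
theorem cHALF : S_HALF := Run7.h376.FP.t_HALF cSPL cTWO cTRL
theorem cGEO : S_GEO := Pool.Agent.Run7.h216.FP.t_GEO
theorem cDIR : S_DIR := Pool.Agent.Run7.h216.FP.t_DIR
theorem cPOLY : S_POLY :=
  Run7.h376.FP.t_POLY cSPL cHALF Pool.Agent.Run7.h216.FP.t_LIM Run7.h637.FP.t_RT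
theorem cOEX : S_OEX := Run7.h24.FP.OEX.t_OEX cGEO cLOW cTRL
theorem cOUTF : S_OUTF := Run7.h376.FP.t_OUTF cGEO cCMD Run7.h921.FP.t_EXO cPOLY cOEX
theorem cIEX : S_IEX := Run7.h943.FP.IEX.t_IEX cGEO cLOW cTRL
theorem cINNF : S_INNF := Run7.h382.FP.t_INNF cGEO cPMU cCMD Run7.h921.FP.t_EXI cIEX
theorem cLTO : S_LTO := Run7.h637.FP.t_LTO

end Run7.h943.FP
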