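import Pool.Agent.Run7.h943.FP.Stm

set_option autoImplicit false
open MeasureTheory ProbabilityTheory Filter Set
open scoped ENNReal Pointwise Topology

namespace Run7.h943.FP
open Pool.Agent.N662.FP

theorem dil (p : Seminorm ℝ (ℝ × ℝ)) (s s' : ℝ) (h0 : 0 ≤ s) (h : s ≤ s') (hs : 0 < s') :
    s • {x : ℝ × ℝ | p x ≤ 1} ⊆ s' • {x : ℝ × ℝ | p x ≤ 1} := by
  rintro _ ⟨x, hx, rfl⟩
  refine ⟨(s / s') • x, ?_, ?_⟩
  · show p ((s / s') • x) ≤ 1
    rw [map_smul_eq_mul, Real.norm_of_nonneg (by positivity)]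
    have h1 : s / s' ≤ 1 := (div_le_one hs).2 h
    have h2 : p x ≤ 1 := hx
    have h3 : 0 ≤ p x := apply_nonneg p x
    have h4 : 0 ≤ s / s' := by positivity
    nlinarith
  · show s' • ((s / s') • x) = s • x
    rw [smul_smul]
    congr 1
    field_simp

theorem pow_anti (t κ κ' : ℝ) (ht : 1 ≤ t) (h : κ' ≤ κ) : t ^ (-κ) ≤ t ^ (-κ') :=
  Real.rpow_le_rpow_of_exponent_le ht (by linarith)

theorem pow_le1 (t κ : ℝ) (ht : 1 ≤ t) (h : 0 ≤ κ) : t ^ (-κ) ≤ 1 :=
  Real.rpow_le_one_of_one_le_of_nonpos ht (by linarith)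

section
variable {Ω : Type} [MeasureSpace Ω] [IsProbabilityMeasure (volume : Measure Ω)]

theorem Lft_mono (T : Ω → ℤ × ℤ → ℝ) (p : Seminorm ℝ (ℝ × ℝ)) (κ κ' t : ℝ) (ht : 1 ≤ t)
    (h : κ' ≤ κ) : Lft T p κ' t ⊆ Lft T p κ t := by
  intro ω hω hsub
  apply hω
  have h1 := pow_anti t κ κ' ht h
  have h2 : 0 < t ^ (-κ) := by positivity
  have h3 : 0 < t ^ (-κ') := by positivity
  refine hsub.trans (dil p _ _ (by positivity) ?_ (by positivity))
  exact mul_le_mul_of_nonneg_right (by linarith) (by linarith)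

theorem Bad_mono (T : Ω → ℤ × ℤ → ℝ) (p : Seminorm ℝ (ℝ × ℝ)) (κ κ' t : ℝ) (ht : 1 < t)
    (h0 : 0 < κ') (h : κ' ≤ κ) : Bad T p κ' t ⊆ Bad T p κ t := by
  intro ω hω hsub
  apply hω
  have h1 := pow_anti t κ κ' ht.le h
  have h2 : t ^ (-κ') ≤ 1 := pow_le1 t κ' ht.le h0.le
  have h4 : t ^ (-κ) < 1 := Real.rpow_lt_one_of_one_lt_of_neg ht (by linarith)
  refine (dil p _ _ (mul_nonneg (by linarith) (by linarith)) ?_ (mul_pos (by linarith) (by linarith))).trans hsub
  exact mul_le_mul_of_nonneg_right (by linarith) (by linarith)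

/-- the final statements, for the passage time `D` -/
theorem final (hDIR : S_DIR) (hLTO : S_LTO) (hOUTF : S_OUTF) (hINNF : S_INNF)
    (X : Sym2 (ℤ × ℤ) → Ω → ℝ) (hX : Iid X) (p : Seminorm ℝ (ℝ × ℝ))
    (hG : Good (fun ω v => D (env X ω) 0 v) p) (hTC : TC X p) :
    -- inner, shape
    (∀ κ e : ℝ, 4 / 5 < κ → e < Real.exp (-1) →
      ¬ ∀ᶠ t : ℝ in atTop, (volume : Measure Ω).real (Bad (fun ω v => D (env X ω) 0 v) p κ t) ≤ e) ∧
    -- outer, shape
    (∀ κ : ℝ, 4 / 5 < κ → ∃ q : ℝ, 0 < q ∧ ¬ Asymptotics.IsBigO atTop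
      (fun t : ℝ => (volume : Measure Ω).real (Lft (fun ω v => D (env X ω) 0 v) p κ t))
      (fun t : ℝ => t ^ (-q))) ∧
    -- upper tail at one point
    (∀ χ e A : ℝ, χ < 1 / 5 → e < Real.exp (-1) → ∃ v : ℤ × ℤ, e < (volume : Measure Ω).real
      {ω | p (em v) + A * (1 + p (em v)) ^ χ ≤ D (env X ω) 0 v}) ∧
    -- lower tail at one point
    (∀ χ : ℝ, χ < 1 / 5 → ∃ q : ℝ, 0 < q ∧ ∀ C : ℝ, ∃ v : ℤ × ℤ,
      C * (1 + p (em v)) ^ (-q) < (volume : Measure Ω).real
        {ω | D (env X ω) 0 v < p (em v) - C * (1 + p (em v)) ^ χ}) ∧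
    -- mean deviation
    (∀ χ : ℝ, χ < 1 / 5 → ¬ ∃ A : ℝ, ∀ v : ℤ × ℤ,
      ∫ ω, |D (env X ω) 0 v - p (em v)| ∂(volume : Measure Ω) ≤ A * (1 + p (em v)) ^ χ) := by
  obtain ⟨y, m, hM⟩ := hDIR p hG.norm
  have pm : ∀ v : ℤ × ℤ, 1 ≤ 1 + p (em v) := fun v => by
    have := apply_nonneg p (em v); linarith
  have one : ∀ χ e A : ℝ, χ < 1 / 5 → e < Real.exp (-1) → ∃ v : ℤ × ℤ,
      e < (volume : Measure Ω).real
      {ω | p (em v) + A * (1 + p (em v)) ^ χ ≤ D (env X ω) 0 v} := by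
    intro χ e A hχ he
    by_contra hcon
    push Not at hcon
    obtain ⟨d, hd, hed⟩ := ex_d e he
    refine hINNF Ω X hX p hG y m hM (1 - max χ (1 / 10)) (max A 1) d ?_ ?_
      (lt_max_of_lt_right one_pos) hd ?_
    · have : max χ (1 / 10) < 1 / 5 := max_lt hχ (by norm_num)
      linarith
    · have : (1 : ℝ) / 10 ≤ max χ (1 / 10) := le_max_right _ _
      linarith
    · intro v
      refine le_trans (measureReal_mono ?_ (measure_ne_top _ _)) ((hcon v).trans hed)
      intro ω hω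
      have h1 : p (em v) + max A 1 * (1 + p (em v)) ^ (1 - (1 - max χ (1 / 10))) ≤
        D (env X ω) 0 v := hω
      rw [sub_sub_cancel] at h1
      show p (em v) + A * (1 + p (em v)) ^ χ ≤ D (env X ω) 0 v
      have h2 : (1 + p (em v)) ^ χ ≤ (1 + p (em v)) ^ (max χ (1 / 10)) :=
        Real.rpow_le_rpow_of_exponent_le (pm v) (le_max_left _ _)
      have h3 : 0 < (1 + p (em v)) ^ χ := Real.rpow_pos_of_pos (by linarith [pm v]) _
      have h4 : A * (1 + p (em v)) ^ χ ≤ max A 1 * (1 + p (em v)) ^ (max χ (1 / 10)) := by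
        calc A * (1 + p (em v)) ^ χ ≤ max A 1 * (1 + p (em v)) ^ χ :=
              mul_le_mul_of_nonneg_right (le_max_left _ _) h3.le
          _ ≤ _ := mul_le_mul_of_nonneg_left h2 (zero_le_one.trans (le_max_right _ _))
      linarith
  refine ⟨?_, ?_, one, ?_, ?_⟩
  · intro κ e hκ he hev
    have hk1 : 4 / 5 < min κ (9 / 10) := lt_min hκ (by norm_num)
    have hk2 : min κ (9 / 10) < 1 := (min_le_right _ _).trans_lt (by norm_num)
    have hev' : ∀ᶠ t : ℝ in atTop, (volume : Measure Ω).real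
        (Bad (fun ω v => D (env X ω) 0 v) p (min κ (9 / 10)) t) ≤ max e (Real.exp (-2)) := by
      filter_upwards [hev, eventually_gt_atTop 1] with t h1 h2
      refine le_trans (measureReal_mono (Bad_mono _ p κ _ t h2 (by linarith) (min_le_left _ _))
        (measure_ne_top _ _)) (h1.trans (le_max_left _ _))
    obtain ⟨A, hA, hh⟩ := cDD2 Ω _ p hG.norm hG.int (min κ (9 / 10)) _ (by linarith) hk2
      (lt_max_of_lt_right (Real.exp_pos _)) hev'
    obtain ⟨v, hv⟩ := one (1 - min κ (9 / 10)) (max e (Real.exp (-2))) A (by linarith)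
      (max_lt he (Real.exp_lt_exp.2 (by norm_num)))
    exact absurd (hh v) (not_le.2 hv)
  · intro κ hκ
    by_contra hcon
    push Not at hcon
    have hk1 : 4 / 5 < min κ (9 / 10) := lt_min hκ (by norm_num)
    have hk2 : min κ (9 / 10) < 1 := (min_le_right _ _).trans_lt (by norm_num)
    refine hOUTF Ω X hX p hG hTC y m hM (1 - min κ (9 / 10)) (by linarith) (by linarith)
      (hLTO Ω X hX p hG.norm (min κ (9 / 10)) (by linarith) hk2 ?_)
    intro q hq
    refine Asymptotics.IsBigO.trans (Asymptotics.IsBigO.of_bound 1 ?_) (hcon q hq)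
    filter_upwards [eventually_ge_atTop 1] with t ht
    rw [Real.norm_of_nonneg measureReal_nonneg, Real.norm_of_nonneg measureReal_nonneg, one_mul]
    exact measureReal_mono (Lft_mono _ p κ _ t ht (min_le_left _ _)) (measure_ne_top _ _)
  · intro χ hχ
    have h0 := hOUTF Ω X hX p hG hTC y m hM (max χ (1 / 10)) (lt_max_of_lt_right (by norm_num))
      (max_lt hχ (by norm_num))
    unfold LT at h0
    push Not at h0
    obtain ⟨q, hq, h1⟩ := h0
    refine ⟨q, hq, fun C => ?_⟩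
    obtain ⟨v, hv⟩ := h1 (max C 1) (lt_max_of_lt_right one_pos)
    refine ⟨v, ?_⟩
    have h3 : 0 < (1 + p (em v)) ^ χ := Real.rpow_pos_of_pos (by linarith [pm v]) _
    have h5 : 0 < (1 + p (em v)) ^ (-q) := Real.rpow_pos_of_pos (by linarith [pm v]) _
    refine lt_of_le_of_lt (mul_le_mul_of_nonneg_right (le_max_left C 1) h5.le)
      (lt_of_lt_of_le hv (measureReal_mono ?_ (measure_ne_top _ _)))
    intro ω hω
    have h6 : D (env X ω) 0 v < p (em v) - max C 1 * (1 + p (em v)) ^ (max χ (1 / 10)) := hω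
    show D (env X ω) 0 v < p (em v) - C * (1 + p (em v)) ^ χ
    have h2 : (1 + p (em v)) ^ χ ≤ (1 + p (em v)) ^ (max χ (1 / 10)) :=
      Real.rpow_le_rpow_of_exponent_le (pm v) (le_max_left _ _)
    have h4 : C * (1 + p (em v)) ^ χ ≤ max C 1 * (1 + p (em v)) ^ (max χ (1 / 10)) := by
      calc C * (1 + p (em v)) ^ χ ≤ max C 1 * (1 + p (em v)) ^ χ :=
            mul_le_mul_of_nonneg_right (le_max_left _ _) h3.le
        _ ≤ _ := mul_le_mul_of_nonneg_left h2 (zero_le_one.trans (le_max_right _ _))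
    linarith
  · rintro χ hχ ⟨A, hA⟩
    obtain ⟨v, hv⟩ := one χ (Real.exp (-2)) (max A 1 * Real.exp 2) hχ
      (Real.exp_lt_exp.2 (by norm_num))
    have h3 : 0 < (1 + p (em v)) ^ χ := Real.rpow_pos_of_pos (by linarith [pm v]) _
    have hA1 : 0 < max A 1 := lt_max_of_lt_right one_pos
    have h4 : 0 < max A 1 * Real.exp 2 * (1 + p (em v)) ^ χ := by positivity
    have h5 := mk (fun ω => D (env X ω) 0 v) (hG.int v) (p (em v)) _ h4
    have h6 : (volume : Measure Ω).real {ω | p (em v) + max A 1 * Real.exp 2 * (1 + p (em v)) ^ χ ≤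
        D (env X ω) 0 v} ≤ (volume : Measure Ω).real {ω | max A 1 * Real.exp 2 *
        (1 + p (em v)) ^ χ ≤ |D (env X ω) 0 v - p (em v)|} := by
      refine measureReal_mono (fun ω hω => ?_) (measure_ne_top _ _)
      have h7 : p (em v) + max A 1 * Real.exp 2 * (1 + p (em v)) ^ χ ≤ D (env X ω) 0 v := hω
      show max A 1 * Real.exp 2 * (1 + p (em v)) ^ χ ≤ |D (env X ω) 0 v - p (em v)|
      exact le_trans (by linarith) (le_abs_self _)
    have h8 : (∫ ω, |D (env X ω) 0 v - p (em v)| ∂(volume : Measure Ω)) /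
        (max A 1 * Real.exp 2 * (1 + p (em v)) ^ χ) ≤ Real.exp (-2) := by
      rw [div_le_iff₀ h4]
      have e1 : Real.exp (-2) * (max A 1 * Real.exp 2 * (1 + p (em v)) ^ χ) =
          max A 1 * (1 + p (em v)) ^ χ := by
        have : Real.exp (-2) * Real.exp 2 = 1 := by rw [← Real.exp_add]; norm_num
        calc _ = (Real.exp (-2) * Real.exp 2) * (max A 1 * (1 + p (em v)) ^ χ) := by ring
          _ = _ := by rw [this, one_mul]
      rw [e1]
      exact (hA v).trans (mul_le_mul_of_nonneg_right (le_max_left _ _) h3.le)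
    linarith

end

end Run7.h943.FP
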