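import Pool.Agent.Run7.h472.OH.Asm4
import Pool.Agent.Run7.h472.OH.HB
import Pool.Agent.Run7.h637.OH.CG
import Pool.Agent.Run7.h973.OH.CHD
import Pool.Agent.Run7.h760.OH.DBL
import Pool.Agent.Run7.h711.OH.EMB
import Pool.Agent.Run7.h704.OH.FEW
import Pool.Agent.Run7.h627.OH.IND
import Pool.Agent.Run7.h627.OH.MEAS
import Pool.Agent.Run7.h824.OH.ITG
import Pool.Agent.Run7.h824.OH.ITT
import Pool.Agent.Run7.h973.OH.LDT
import Pool.Agent.Run7.h637.OH.MLO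
import Pool.Agent.Run7.h973.OH.MUP
import Pool.Agent.Run7.h973.OH.NRF
import Pool.Agent.Run7.h213.OH.OTG
import Pool.Agent.Run7.h637.OH.OUT
import Pool.Agent.Run7.h637.OH.OUT2
import Pool.Agent.Run7.h711.OH.STEP
import Pool.Agent.Run7.h213.OH.TR

set_option autoImplicit false

namespace Run7.h943.FP
open Pool.Agent.Run7.h472.OH
open Pool.Agent.N662.FP (cGE cAE cME)

theorem dMEAS : S_MEAS := Pool.Agent.Run7.h627.OH.t_MEAS t_WBD
theorem dIND : S_IND := Pool.Agent.Run7.h627.OH.t_IND t_WBD dMEAS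
theorem dCG : S_CG := Pool.Agent.Run7.h637.OH.t_CG t_WBD t_DET dMEAS dIND

/-- all the pieces of helper472's project -/
theorem pcs : Pcs where
  CG := dCG
  FEW := Pool.Agent.Run7.h704.OH.t_FEW t_WBD t_DET dMEAS dIND
  STEP := Run7.h711.OH.t_STEP t_WBD dCG cGE cAE
  EMB := Run7.h711.OH.t_EMB t_WBD dMEAS
  OTG := Pool.Agent.Run7.h213.OH.t_OTG t_WBD (Pool.Agent.Run7.h213.OH.t_TR cME cAE) cGE cAE
  ITG := Pool.Agent.Run7.h824.OH.t_ITG
  ITT := Pool.Agent.Run7.h824.OH.t_ITT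
  OUT := Pool.Agent.Run7.h637.OH.t_OUT
  OUT2 := Pool.Agent.Run7.h637.OH.t_OUT2
  LDT := Run7.h973.OH.t_LDT
  HB := t_HB
  DBL := Pool.Agent.Run7.h760.OH.t_DBL Run7.h973.OH.t_CHD t_HB
  NRF := Run7.h973.OH.t_NRF
  MUP := Run7.h973.OH.t_MUP
  MLO := Pool.Agent.Run7.h637.OH.t_MLO

end Run7.h943.FP
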