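import Pool.Agent.Run7.h943.FP.All
import Pool.Agent.Run7.h943.FP.Pcs

/-! Final statements with explicit powers, from `final` and the equivalences of helper472. -/

set_option autoImplicit false
open MeasureTheory ProbabilityTheory Filter Set
open scoped ENNReal Pointwise Topology

namespace Run7.h943.FP
open Pool.Agent.N662.FP

section
variable {Ω : Type} [MeasureSpace Ω] [IsProbabilityMeasure (volume : Measure Ω)]

theorem three (q κ : ℝ) (hq : 0 < q) (h : κ < 1 - 3 / q) : 3 / (1 - κ) < q := by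
  have h0 : 0 < 3 / q := div_pos (by norm_num) hq
  have h1 : 0 < 1 - κ := by linarith
  rw [div_lt_iff₀ h1]
  have h2 : 3 / q < 1 - κ := by linarith
  rw [div_lt_iff₀ hq] at h2
  linarith

theorem five (q κ : ℝ) (hq : 0 < q) (h : κ < 1 - 5 / q) : 5 / (1 - κ) < q := by
  have h0 : 0 < 5 / q := div_pos (by norm_num) hq
  have h1 : 0 < 1 - κ := by linarith
  rw [div_lt_iff₀ h1]
  have h2 : 5 / q < 1 - κ := by linarith
  rw [div_lt_iff₀ hq] at h2
  linarith

theorem LT_mono (T : Ω → ℤ × ℤ → ℝ) (h : ℤ × ℤ → ℝ) (κ κ' q : ℝ) (hk : κ' ≤ κ)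
    (hh : Pool.Agent.Run7.h472.OH.LT T h κ q) : Pool.Agent.Run7.h472.OH.LT T h κ' q := by
  obtain ⟨A, hA, hv⟩ := hh
  refine ⟨A, hA, fun v => (measureReal_mono ?_ (measure_ne_top _ _)).trans (hv v)⟩
  intro ω hω
  have h1 : T ω v ≤ h v - A * (1 + (Pool.Agent.Run7.h472.OH.nm v : ℝ)) ^ (1 - κ') := hω
  show T ω v ≤ h v - A * (1 + (Pool.Agent.Run7.h472.OH.nm v : ℝ)) ^ (1 - κ)
  have h2 : (1 + (Pool.Agent.Run7.h472.OH.nm v : ℝ)) ^ (1 - κ) ≤
      (1 + (Pool.Agent.Run7.h472.OH.nm v : ℝ)) ^ (1 - κ') :=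
    Real.rpow_le_rpow_of_exponent_le (by
      have : (0 : ℝ) ≤ (Pool.Agent.Run7.h472.OH.nm v : ℝ) := Nat.cast_nonneg _
      linarith) (by linarith)
  have h3 := mul_le_mul_of_nonneg_left h2 hA.le
  linarith

/-- the outer half, every power `q > 15` -/
theorem outer15 (X : Sym2 (ℤ × ℤ) → Ω → ℝ) (hX : Iid X) (p : Seminorm ℝ (ℝ × ℝ))
    (hG : Good (fun ω v => D (env X ω) 0 v) p) (hTC : TC X p) (κ q : ℝ) (hκ : 4 / 5 < κ)
    (hq : 15 < q) : ¬ Asymptotics.IsBigO atTop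
      (fun t : ℝ => (volume : Measure Ω).real (Lft (fun ω v => D (env X ω) 0 v) p κ t))
      (fun t : ℝ => t ^ (-q)) := by
  intro hO
  have hfin := (final cDIR cLTO cOUTF cINNF X hX p hG hTC).2.1
  have h35 : 3 / q < 1 / 5 := by
    rw [div_lt_iff₀ (by linarith)]; linarith
  have h30 : 0 < 3 / q := div_pos (by norm_num) (by linarith)
  set K : ℝ := min κ (1 - 3 / q) with hK
  have hK1 : 4 / 5 < K := lt_min hκ (by linarith)
  have hK2 : K ≤ 1 := (min_le_right _ _).trans (by linarith)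
  have hT := Pool.Agent.Run7.h472.OH.outer_tfae pcs hX p hG.norm K hK2
  have h2 : ∀ κ' : ℝ, 0 < κ' → κ' < K → ∀ q' : ℝ, 0 < q' →
      Pool.Agent.Run7.h472.OH.OP (fun ω v => D (env X ω) 0 v) p κ' q' := by
    refine (hT.out 0 1).1 ?_
    intro κ' h0 h1
    refine ⟨q, three q κ' (by linarith) (h1.trans_le (min_le_right _ _)), ?_⟩
    refine Asymptotics.IsBigO.trans (Asymptotics.IsBigO.of_bound 1 ?_) hO
    filter_upwards [eventually_ge_atTop 1] with t ht
    rw [Real.norm_of_nonneg measureReal_nonneg, Real.norm_of_nonneg measureReal_nonneg, one_mul]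
    exact measureReal_mono (Lft_mono _ p κ κ' t ht (h1.le.trans (min_le_left _ _)))
      (measure_ne_top _ _)
  obtain ⟨q', hq', hn⟩ := hfin ((4 / 5 + K) / 2) (by linarith)
  exact hn (h2 ((4 / 5 + K) / 2) (by linarith) (by linarith) q' hq')

/-- the lower tail at one point, every power `q > 25` -/
theorem lower25 (X : Sym2 (ℤ × ℤ) → Ω → ℝ) (hX : Iid X) (p : Seminorm ℝ (ℝ × ℝ))
    (hG : Good (fun ω v => D (env X ω) 0 v) p) (hTC : TC X p) (χ q A : ℝ) (hχ : χ < 1 / 5)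
    (hq : 25 < q) : ∃ v : ℤ × ℤ, A * (1 + (Pool.Agent.Run7.h472.OH.nm v : ℝ)) ^ (-q) <
      (volume : Measure Ω).real
        {ω | D (env X ω) 0 v ≤ p (em v) - A * (1 + (Pool.Agent.Run7.h472.OH.nm v : ℝ)) ^ χ} := by
  by_contra hcon
  push Not at hcon
  have hfin := (final cDIR cLTO cOUTF cINNF X hX p hG hTC).2.1
  have h35 : 5 / q < 1 / 5 := by
    rw [div_lt_iff₀ (by linarith)]; linarith
  have h30 : 0 < 5 / q := div_pos (by norm_num) (by linarith)
  set K : ℝ := min (1 - χ) (1 - 5 / q) with hK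
  have hK1 : 4 / 5 < K := lt_min (by linarith) (by linarith)
  have hK2 : K ≤ 1 := (min_le_right _ _).trans (by linarith)
  have hT := Pool.Agent.Run7.h472.OH.outer_tfae pcs hX p hG.norm K hK2
  have hLT : Pool.Agent.Run7.h472.OH.LT (fun ω v => D (env X ω) 0 v) (fun v => p (em v))
      (1 - χ) q := by
    refine ⟨max A 1, lt_max_of_lt_right one_pos, fun v => ?_⟩
    have hn : (1 : ℝ) ≤ 1 + (Pool.Agent.Run7.h472.OH.nm v : ℝ) := by
      have : (0 : ℝ) ≤ (Pool.Agent.Run7.h472.OH.nm v : ℝ) := Nat.cast_nonneg _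
      linarith
    have h5 : 0 < (1 + (Pool.Agent.Run7.h472.OH.nm v : ℝ)) ^ (-q) :=
      Real.rpow_pos_of_pos (by linarith) _
    have h6 : 0 < (1 + (Pool.Agent.Run7.h472.OH.nm v : ℝ)) ^ χ :=
      Real.rpow_pos_of_pos (by linarith) _
    refine (measureReal_mono ?_ (measure_ne_top _ _)).trans ((hcon v).trans
      (mul_le_mul_of_nonneg_right (le_max_left A 1) h5.le))
    intro ω hω
    have h1 : D (env X ω) 0 v ≤ p (em v) -
      max A 1 * (1 + (Pool.Agent.Run7.h472.OH.nm v : ℝ)) ^ (1 - (1 - χ)) := hω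
    rw [sub_sub_cancel] at h1
    show D (env X ω) 0 v ≤ p (em v) - A * (1 + (Pool.Agent.Run7.h472.OH.nm v : ℝ)) ^ χ
    have h2 := mul_le_mul_of_nonneg_right (le_max_left A 1) h6.le
    linarith
  have h2 : ∀ κ' : ℝ, 0 < κ' → κ' < K → ∀ q' : ℝ, 0 < q' →
      Pool.Agent.Run7.h472.OH.OP (fun ω v => D (env X ω) 0 v) p κ' q' := by
    refine (hT.out 4 1).1 ?_
    intro κ' h0 h1
    exact ⟨q, five q κ' (by linarith) (h1.trans_le (min_le_right _ _)),
      LT_mono _ _ (1 - χ) κ' q (h1.le.trans (min_le_left _ _)) hLT⟩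
  obtain ⟨q', hq', hn⟩ := hfin ((4 / 5 + K) / 2) (by linarith)
  exact hn (h2 ((4 / 5 + K) / 2) (by linarith) (by linarith) q' hq')

/-- some central moment is large -/
theorem central (X : Sym2 (ℤ × ℤ) → Ω → ℝ) (hX : Iid X) (p : Seminorm ℝ (ℝ × ℝ))
    (hG : Good (fun ω v => D (env X ω) 0 v) p) (hTC : TC X p) (χ : ℝ) (hχ : χ < 1 / 5) :
    ∃ k : ℕ, ¬ ∃ A : ℝ, ∀ v : ℤ × ℤ,
      ∫⁻ ω, ENNReal.ofReal (|D (env X ω) 0 v - ∫ ω', D (env X ω') 0 v| ^ k) ≤
        ENNReal.ofReal (A * (1 + (Pool.Agent.Run7.h472.OH.nm v : ℝ)) ^ (χ * k)) := by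
  by_contra hcon
  push Not at hcon
  have hfin := (final cDIR cLTO cOUTF cINNF X hX p hG hTC).2.1
  set K : ℝ := min (1 - χ) (9 / 10) with hK
  have hK1 : 4 / 5 < K := lt_min (by linarith) (by norm_num)
  have hK2 : K < 1 := (min_le_right _ _).trans_lt (by norm_num)
  have hT := Pool.Agent.Run7.h472.OH.full_tfae pcs hX p hG hTC K hK2
  have h1 : ∀ κ' : ℝ, 0 < κ' → κ' < K → ∀ k : ℕ, Pool.Agent.Run7.h472.OH.CM
      (fun ω v => D (env X ω) 0 v) (Pool.Agent.Run7.h472.OH.HH X) κ' k := by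
    intro κ' h0 h1 k
    obtain ⟨A, hA⟩ := hcon k
    refine ⟨max A 0, fun v => ?_⟩
    have hn : (1 : ℝ) ≤ 1 + (Pool.Agent.Run7.h472.OH.nm v : ℝ) := by
      have : (0 : ℝ) ≤ (Pool.Agent.Run7.h472.OH.nm v : ℝ) := Nat.cast_nonneg _
      linarith
    have hiT : Integrable (fun ω => D (env X ω) 0 v) (volume : Measure Ω) := cINT Ω X hX 0 v
    have hmeas : AEStronglyMeasurable (fun ω => |D (env X ω) 0 v -
        Pool.Agent.Run7.h472.OH.HH X v| ^ k) (volume : Measure Ω) :=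
      ((hiT.sub (integrable_const _)).abs.aestronglyMeasurable).pow k
    have hle : ∫⁻ ω, ENNReal.ofReal (|D (env X ω) 0 v - Pool.Agent.Run7.h472.OH.HH X v| ^ k) ≤
        ENNReal.ofReal (A * (1 + (Pool.Agent.Run7.h472.OH.nm v : ℝ)) ^ (χ * k)) := hA v
    have hint : Integrable (fun ω => |D (env X ω) 0 v - Pool.Agent.Run7.h472.OH.HH X v| ^ k)
        (volume : Measure Ω) := by
      refine ⟨hmeas, ?_⟩
      rw [hasFiniteIntegral_iff_ofReal (Eventually.of_forall fun ω => by positivity)]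
      exact lt_of_le_of_lt hle ENNReal.ofReal_lt_top
    refine ⟨hint, ?_⟩
    have h4 : ENNReal.ofReal (∫ ω, |D (env X ω) 0 v - Pool.Agent.Run7.h472.OH.HH X v| ^ k) ≤
        ENNReal.ofReal (max A 0 * (1 + (Pool.Agent.Run7.h472.OH.nm v : ℝ)) ^ (χ * k)) := by
      rw [ofReal_integral_eq_lintegral_ofReal hint (Eventually.of_forall fun ω => by positivity)]
      refine hle.trans (ENNReal.ofReal_le_ofReal ?_)
      exact mul_le_mul_of_nonneg_right (le_max_left _ _) (Real.rpow_nonneg (by linarith) _)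
    have h5 : 0 ≤ max A 0 * (1 + (Pool.Agent.Run7.h472.OH.nm v : ℝ)) ^ (χ * k) :=
      mul_nonneg (le_max_right _ _) (Real.rpow_nonneg (by linarith) _)
    have h6 := (ENNReal.ofReal_le_ofReal_iff h5).1 h4
    refine h6.trans (mul_le_mul_of_nonneg_left ?_ (le_max_right _ _))
    rw [Real.rpow_mul (by linarith), Real.rpow_natCast]
    refine pow_le_pow_left₀ (Real.rpow_nonneg (by linarith) _) ?_ k
    exact Real.rpow_le_rpow_of_exponent_le hn (by
      have := h1.le.trans (min_le_left (1 - χ) (9 / 10))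
      linarith)
  obtain ⟨q', hq', hn⟩ := hfin ((4 / 5 + K) / 2) (by linarith)
  have h2 : ∀ κ' : ℝ, 0 < κ' → κ' < K → ∀ q' : ℝ, 0 < q' →
      Pool.Agent.Run7.h472.OH.OP (fun ω v => D (env X ω) 0 v) p κ' q' ∧ Asymptotics.IsBigO atTop
          (fun t : ℝ => (volume : Measure Ω).real (Bad (fun ω v => D (env X ω) 0 v) p κ' t))
          (fun t : ℝ => t ^ (-q')) := (hT.out 3 0).1 h1
  exact hn (h2 ((4 / 5 + K) / 2) (by linarith) (by linarith) q' hq').1

end

end Run7.h943.FP
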