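import Pool.Agent.Run7.h943.FP.IEXa

set_option autoImplicit false
open MeasureTheory ProbabilityTheory Filter Set
open scoped ENNReal Pointwise Topology

namespace Run7.h943.FP.IEX
open Pool.Agent.N662.FP Run7.h943.FP

/-- rounding -/
noncomputable def Z (y : ℝ × ℝ) (s r : ℝ) : ℤ × ℤ :=
  (round (s * y.1 - r * y.2), round (s * y.2 + r * y.1))

theorem Z_near {y : ℝ × ℝ} (hy : y.1 ^ 2 + y.2 ^ 2 = 1) (s r : ℝ) :
    |al y (Pool.Agent.N662.FP.em (Z y s r)) - s| ≤ 2 ∧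
      |cr y (Pool.Agent.N662.FP.em (Z y s r)) - r| ≤ 2 := by
  apply near hy
  · have := abs_sub_round (s * y.1 - r * y.2)
    rw [abs_sub_comm] at this
    exact this.trans (by norm_num)
  · have := abs_sub_round (s * y.2 + r * y.1)
    rw [abs_sub_comm] at this
    exact this.trans (by norm_num)

section
variable {Ω : Type} [MeasureSpace Ω] [IsProbabilityMeasure (volume : Measure Ω)]
variable {X : Sym2 (ℤ × ℤ) → Ω → ℝ} {μ : Seminorm ℝ (ℝ × ℝ)}

theorem up1 (hX : Iid X) (hG : Good (fun ω v => D (env X ω) 0 v) μ) (a v : ℤ × ℤ)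
    (r R d g : ℝ) (hr : 0 < r) (hrR : r ≤ R) (hRg : R ≤ g / 2) (hd : 0 < d)
    (h : (volume : Measure Ω).real {ω | μ (em v) + r ≤ D (env X ω) 0 v} ≤ Real.exp (-(1 + d))) :
    (volume : Measure Ω).real {ω | μ (em v) + g < D (env X ω) a (a + v)} ≤
      Real.exp (-(d * (g / 2) / R)) := by
  have h1 := (hG.one v r d hr hd h).1 (g - r) (by linarith)
  have h2 := cTIL Ω X hX a v (μ (em v) + r + (g - r))
  refine le_trans (measureReal_mono (μ := (volume : Measure Ω))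
    (s₂ := {ω | μ (em v) + r + (g - r) ≤ D (env X ω) a (a + v)}) ?_ (measure_ne_top _ _)) ?_
  · intro ω hω
    have hω' : μ (em v) + g < D (env X ω) a (a + v) := hω
    show μ (em v) + r + (g - r) ≤ D (env X ω) a (a + v)
    linarith
  · rw [h2]
    refine h1.trans (Real.exp_le_exp.2 ?_)
    have e1 : d * (g / 2) / R ≤ d * (g - r) / r := by
      rw [div_le_div_iff₀ (by linarith) hr]
      have a1 : d * (g / 2) * r ≤ d * (g / 2) * R :=
        mul_le_mul_of_nonneg_left hrR (by nlinarith)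
      have a2 : d * (g / 2) * R ≤ d * (g - r) * R := by
        apply mul_le_mul_of_nonneg_right _ (by linarith)
        exact mul_le_mul_of_nonneg_left (by linarith) hd.le
      linarith
    linarith

theorem dn1 (hTRL : S_TRL) (hX : Iid X) (hG : Good (fun ω v => D (env X ω) 0 v) μ) (a v : ℤ × ℤ)
    (r R d g : ℝ) (hr : 0 < r) (hrR : r ≤ R) (hd : 0 < d) (hg : 0 < g)
    (h : (volume : Measure Ω).real {ω | μ (em v) + r ≤ D (env X ω) 0 v} ≤ Real.exp (-(1 + d))) :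
    (volume : Measure Ω).real {ω | D (env X ω) a (a + v) < μ (em v) - g} ≤
      2 * (1 + 1 / d) * R / g := by
  have h1 := (hG.one v r d hr hd h).2
  have h2 := mk (fun ω => D (env X ω) 0 v) (hG.int v) (μ (em v)) g hg
  rw [(hTRL Ω X hX a v (μ (em v) - g)).1]
  refine le_trans (measureReal_mono (μ := (volume : Measure Ω))
    (s₂ := {ω | g ≤ |D (env X ω) 0 v - μ (em v)|}) ?_ (measure_ne_top _ _)) (h2.trans ?_)
  · intro ω hω
    have hω' : D (env X ω) 0 v < μ (em v) - g := hω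
    show g ≤ |D (env X ω) 0 v - μ (em v)|
    have := neg_abs_le (D (env X ω) 0 v - μ (em v))
    linarith
  · apply div_le_div_of_nonneg_right _ hg.le
    refine h1.trans ?_
    apply mul_le_mul_of_nonneg_left hrR
    positivity

theorem lo1 (hLOW : S_LOW) (hX : Iid X) (hG : Good (fun ω v => D (env X ω) 0 v) μ) (v : ℤ × ℤ)
    (M : ℝ) (hM : 0 < M) (hv : M ≤ μ (em v)) :
    (volume : Measure Ω).real {ω | D (env X ω) 0 v < μ (em v) / 2} ≤ Real.exp (1 - M / 32) := by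
  have h1 := hLOW Ω X hX μ hG v (μ (em v) / 2) (by linarith) (by linarith) (by linarith)
  have e : μ (em v) - μ (em v) / 2 = μ (em v) / 2 := by ring
  rw [e] at h1
  refine h1.trans (Real.exp_le_exp.2 ?_)
  have e2 : (μ (em v) / 2) ^ 2 / (8 * μ (em v)) = μ (em v) / 32 := by
    have : μ (em v) ≠ 0 := by linarith
    field_simp
    norm_num
  rw [e2]
  linarith

/-- the points on the boundary of the tube -/
theorem bd_pt (hGEO : S_GEO) {y : ℝ × ℝ} (hy : y.1 ^ 2 + y.2 ^ 2 = 1) (n : ℕ) (w : ℝ) (hw : 0 ≤ w)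
    (hn : 1 ≤ n) (z : ℤ × ℤ) (hz : z ∈ bd (tube y (8 * n) w)) :
    |al y (em z)| ≤ 18 * n ∧ |cr y (em z)| ≤ 18 * n ∧
    (z ∈ box (8 * n) → |al y (em z)| ≤ 12 * n ∧ ∃ σ : ℝ, (σ = 1 ∨ σ = -1) ∧
      |cr y (em z) - σ * w| ≤ 1) ∧ (z ∉ box (8 * n) → (8 : ℝ) * n ≤ eu (em z)) := by
  obtain ⟨h1, -, -, -, h5, h6⟩ := hGEO y hy
  obtain ⟨-, -, -, -, -, h7⟩ := h1 (8 * n) w hw
  obtain ⟨h8, h9⟩ := h7 z hz
  have hn' : (1 : ℝ) ≤ n := by exact_mod_cast hn
  have hb : |(z.1 : ℝ)| ≤ 8 * n + 1 ∧ |(z.2 : ℝ)| ≤ 8 * n + 1 := by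
    unfold box at h8
    rw [Finset.mem_product, Finset.mem_Icc, Finset.mem_Icc] at h8
    obtain ⟨⟨a1, a2⟩, a3, a4⟩ := h8
    push_cast at a1 a2 a3 a4
    constructor
    · rw [abs_le]; constructor
      · have : ((-(8 * (n : ℤ) + 1) : ℤ) : ℝ) ≤ (z.1 : ℝ) := by exact_mod_cast a1
        push_cast at this; linarith
      · have : (z.1 : ℝ) ≤ ((8 * (n : ℤ) + 1 : ℤ) : ℝ) := by exact_mod_cast a2
        push_cast at this; linarith
    · rw [abs_le]; constructor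
      · have : ((-(8 * (n : ℤ) + 1) : ℤ) : ℝ) ≤ (z.2 : ℝ) := by exact_mod_cast a3
        push_cast at this; linarith
      · have : (z.2 : ℝ) ≤ ((8 * (n : ℤ) + 1 : ℤ) : ℝ) := by exact_mod_cast a4
        push_cast at this; linarith
  obtain ⟨c1, c2, c3, c4, c5⟩ := h6 (em z)
  have c5' : eu (em z) ≤ |(z.1 : ℝ)| + |(z.2 : ℝ)| := c5
  refine ⟨by linarith, by linarith, ?_, ?_⟩
  · intro hin
    have hb' : |(z.1 : ℝ)| ≤ 8 * n ∧ |(z.2 : ℝ)| ≤ 8 * n := by
      unfold box at hin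
      rw [Finset.mem_product, Finset.mem_Icc, Finset.mem_Icc] at hin
      obtain ⟨⟨a1, a2⟩, a3, a4⟩ := hin
      push_cast at a1 a2 a3 a4
      constructor
      · rw [abs_le]; constructor
        · have : ((-(8 * (n : ℤ)) : ℤ) : ℝ) ≤ (z.1 : ℝ) := by exact_mod_cast a1
          push_cast at this; linarith
        · have : (z.1 : ℝ) ≤ ((8 * (n : ℤ) : ℤ) : ℝ) := by exact_mod_cast a2
          push_cast at this; linarith
      · rw [abs_le]; constructor
        · have : ((-(8 * (n : ℤ)) : ℤ) : ℝ) ≤ (z.2 : ℝ) := by exact_mod_cast a3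
          push_cast at this; linarith
        · have : (z.2 : ℝ) ≤ ((8 * (n : ℤ) : ℤ) : ℝ) := by exact_mod_cast a4
          push_cast at this; linarith
    refine ⟨?_, ?_⟩
    · have h10 := h5 (em z)
      have e1 : eu (em z) ^ 2 = (z.1 : ℝ) ^ 2 + (z.2 : ℝ) ^ 2 := by
        unfold eu
        rw [Real.sq_sqrt (by positivity)]
        rfl
      have e2 : (z.1 : ℝ) ^ 2 ≤ (8 * n) ^ 2 := sq_le_sq.2 (by rw [abs_of_nonneg (by positivity : (0:ℝ) ≤ 8 * n)]; exact hb'.1)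
      have e3 : (z.2 : ℝ) ^ 2 ≤ (8 * n) ^ 2 := sq_le_sq.2 (by rw [abs_of_nonneg (by positivity : (0:ℝ) ≤ 8 * n)]; exact hb'.2)
      apply abs_le_of_sq_le_sq _ (by positivity)
      nlinarith [sq_nonneg (cr y (em z))]
    · rcases h9 with h9 | ⟨h9, h10⟩
      · exact absurd hin h9
      · rcases abs_cases (cr y (em z)) with ⟨e, -⟩ | ⟨e, -⟩
        · refine ⟨1, Or.inl rfl, ?_⟩
          rw [e] at h9 h10
          rw [abs_le]; constructor <;> linarith
        · refine ⟨-1, Or.inr rfl, ?_⟩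
          rw [e] at h9 h10
          rw [abs_le]; constructor <;> linarith
  · intro hout
    have hb' : 8 * (n : ℝ) ≤ |(z.1 : ℝ)| ∨ 8 * (n : ℝ) ≤ |(z.2 : ℝ)| := by
      by_contra hcon
      push Not at hcon
      apply hout
      unfold box
      rw [Finset.mem_product, Finset.mem_Icc, Finset.mem_Icc]
      obtain ⟨a1, a2⟩ := hcon
      rw [abs_lt] at a1 a2
      push_cast
      refine ⟨⟨?_, ?_⟩, ?_, ?_⟩
      · have : ((-(8 * (n : ℤ)) : ℤ) : ℝ) < (z.1 : ℝ) := by push_cast; linarith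
        exact_mod_cast this.le
      · have : (z.1 : ℝ) < ((8 * (n : ℤ) : ℤ) : ℝ) := by push_cast; linarith
        exact_mod_cast this.le
      · have : ((-(8 * (n : ℤ)) : ℤ) : ℝ) < (z.2 : ℝ) := by push_cast; linarith
        exact_mod_cast this.le
      · have : (z.2 : ℝ) < ((8 * (n : ℤ) : ℤ) : ℝ) := by push_cast; linarith
        exact_mod_cast this.le
    have c3' : |(z.1 : ℝ)| ≤ eu (em z) := c3
    have c4' : |(z.2 : ℝ)| ≤ eu (em z) := c4
    rcases hb' with h | h <;> linarith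

theorem un_le {ι : Type} (S : Finset ι) (f : ι → Set Ω) (b : ℝ)
    (h : ∀ i ∈ S, (volume : Measure Ω).real (f i) ≤ b) :
    (volume : Measure Ω).real (⋃ i ∈ S, f i) ≤ S.card * b := by
  refine (measureReal_biUnion_finset_le S f).trans ?_
  refine (Finset.sum_le_sum h).trans ?_
  rw [Finset.sum_const, nsmul_eq_mul]

theorem u2 (a b : Set Ω) (p q : ℝ) (ha : (volume : Measure Ω).real a ≤ p)
    (hb : (volume : Measure Ω).real b ≤ q) : (volume : Measure Ω).real (a ∪ b) ≤ p + q :=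
  (measureReal_union_le a b).trans (add_le_add ha hb)

theorem fixed (hGEO : S_GEO) (hLOW : S_LOW) (hTRL : S_TRL) (hX : Iid X)
    (hG : Good (fun ω v => D (env X ω) 0 v) μ) (y : ℝ × ℝ) (m Cm : ℝ) (hM : MinDir μ y m)
    (hC : ∀ x, μ x ≤ Cm * eu x) (hC0 : 0 ≤ Cm) (χ A d : ℝ) (hχ : 0 < χ) (hA : 0 < A) (hd : 0 < d)
    (hone : ∀ v : ℤ × ℤ, (volume : Measure Ω).real
      {ω | μ (em v) + A * (1 + μ (em v)) ^ χ ≤ D (env X ω) 0 v} ≤ Real.exp (-(1 + d)))
    (n : ℕ) (hn : 1 ≤ n) (w g R ρ : ℝ) (hw : 12 ≤ w) (hwn : w ≤ n)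
    (hR : A * (1 + 34 * (m + Cm) * n) ^ χ ≤ R) (hRg : R ≤ g / 2)
    (hfin : ρ ≤ m * w ^ 2 / (39 * n) - 10 * m - 6 * Cm - 4 * g) (hρ : ρ ≤ 3 * m * n)
    (u : ℤ × ℤ) (hu : |al y (em u) - n| ≤ 2 ∧ |cr y (em u)| ≤ 2) :
    (volume : Measure Ω).real {ω | ∃ z ∈ bd (tube y (8 * n) w),
      D (env X ω) 0 z + D (env X ω) z u < m * n + ρ} ≤
    (bd (tube y (8 * n) w)).card * (4 * Real.exp (-(d * (g / 2) / R)) +
      Real.exp (1 - 8 * m * n / 32)) + 4 * (2 * (1 + 1 / d) * R / g) := by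
  have hn' : (1 : ℝ) ≤ n := by exact_mod_cast hn
  have hm := hM.pos
  have hRpos : 0 < R := lt_of_lt_of_le (by positivity) hR
  have hg : 0 < g := by linarith
  set B := bd (tube y (8 * n) w) with hB
  set e1 := Real.exp (-(d * (g / 2) / R)) with he1
  set e2 := 2 * (1 + 1 / d) * R / g with he2
  set e3 := Real.exp (1 - 8 * m * n / 32) with he3
  -- the norm bound
  have rr : ∀ v : ℤ × ℤ, |al y (em v)| ≤ 34 * n → |cr y (em v)| ≤ 34 * n →
      A * (1 + μ (em v)) ^ χ ≤ R := by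
    intro v h1 h2
    refine le_trans ?_ hR
    have h3 : μ (em v) ≤ 34 * (m + Cm) * n := by
      refine (mu_le μ y m Cm hM hC _).trans ?_
      have a1 := mul_le_mul_of_nonneg_left h1 hm.le
      have a2 := mul_le_mul_of_nonneg_left h2 hC0
      nlinarith
    have h4 : 0 ≤ μ (em v) := apply_nonneg μ _
    apply mul_le_mul_of_nonneg_left _ hA.le
    exact Real.rpow_le_rpow (by linarith) (by linarith) hχ.le
  have rpos : ∀ v : ℤ × ℤ, 0 < A * (1 + μ (em v)) ^ χ := by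
    intro v
    have h4 : 0 ≤ μ (em v) := apply_nonneg μ _
    positivity
  have n1 : ∀ σ : ℝ, (σ = 1 ∨ σ = -1) → |al y (em (Z y (14 * n) (σ * w))) - 14 * n| ≤ 2 ∧
      |cr y (em (Z y (14 * n) (σ * w))) - σ * w| ≤ 2 := fun σ _ => Z_near hM.unit _ _
  have n2 : ∀ σ : ℝ, (σ = 1 ∨ σ = -1) → |al y (em (Z y (-14 * n) (σ * w))) - (-14 * n)| ≤ 2 ∧
      |cr y (em (Z y (-14 * n) (σ * w))) - σ * w| ≤ 2 := fun σ _ => Z_near hM.unit _ _
  -- the events
  set a1 : ℤ × ℤ → ℝ → Set Ω := fun z σ => {ω | μ (em (Z y (14 * n) (σ * w) - z)) + g <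
    D (env X ω) z (z + (Z y (14 * n) (σ * w) - z))} with ha1
  set a2 : ℤ × ℤ → ℝ → Set Ω := fun z σ => {ω | μ (em (z - Z y (-14 * n) (σ * w))) + g <
    D (env X ω) (Z y (-14 * n) (σ * w)) (Z y (-14 * n) (σ * w) + (z - Z y (-14 * n) (σ * w)))} with ha2
  set b1 : ℝ → Set Ω := fun σ => {ω | D (env X ω) 0 (0 + Z y (14 * n) (σ * w)) <
    μ (em (Z y (14 * n) (σ * w))) - g} with hb1
  set b2 : ℝ → Set Ω := fun σ => {ω | D (env X ω) (Z y (-14 * n) (σ * w))
    (Z y (-14 * n) (σ * w) + (u - Z y (-14 * n) (σ * w))) <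
    μ (em (u - Z y (-14 * n) (σ * w))) - g} with hb2
  set c1 : ℤ × ℤ → Set Ω := fun z => {ω | z ∉ box (8 * n) ∧ D (env X ω) 0 z < μ (em z) / 2} with hc1
  have hσ1 : (1 : ℝ) = 1 ∨ (1 : ℝ) = -1 := Or.inl rfl
  have hσ2 : (-1 : ℝ) = 1 ∨ (-1 : ℝ) = -1 := Or.inr rfl
  have sw : ∀ σ : ℝ, (σ = 1 ∨ σ = -1) → |σ * w| = w := by
    rintro σ (rfl | rfl)
    · rw [one_mul, abs_of_nonneg (by linarith)]
    · rw [neg_one_mul, abs_neg, abs_of_nonneg (by linarith)]
  have pa1 : ∀ z ∈ B, ∀ σ : ℝ, (σ = 1 ∨ σ = -1) → (volume : Measure Ω).real (a1 z σ) ≤ e1 := by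
    intro z hz σ hσ
    obtain ⟨q1, q2, -, -⟩ := bd_pt hGEO hM.unit n w (by linarith) hn z hz
    obtain ⟨q3, q4⟩ := n1 σ hσ
    have q5 := sw σ hσ
    refine up1 hX hG z _ _ R d g (rpos _) (rr _ ?_ ?_) hRg hd (hone _)
    · rw [em_sub, al_sub]
      rw [abs_le] at q1 q3 ⊢
      constructor <;> linarith
    · rw [em_sub, cr_sub]
      have q6 := abs_le.1 q5.le
      rw [abs_le] at q2 q4 ⊢
      constructor <;> linarith
  have pa2 : ∀ z ∈ B, ∀ σ : ℝ, (σ = 1 ∨ σ = -1) → (volume : Measure Ω).real (a2 z σ) ≤ e1 := by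
    intro z hz σ hσ
    obtain ⟨q1, q2, -, -⟩ := bd_pt hGEO hM.unit n w (by linarith) hn z hz
    obtain ⟨q3, q4⟩ := n2 σ hσ
    have q5 := sw σ hσ
    refine up1 hX hG _ _ _ R d g (rpos _) (rr _ ?_ ?_) hRg hd (hone _)
    · rw [em_sub, al_sub]
      rw [abs_le] at q1 q3 ⊢
      constructor <;> linarith
    · rw [em_sub, cr_sub]
      have q6 := abs_le.1 q5.le
      rw [abs_le] at q2 q4 ⊢
      constructor <;> linarith
  have pb1 : ∀ σ : ℝ, (σ = 1 ∨ σ = -1) → (volume : Measure Ω).real (b1 σ) ≤ e2 := by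
    intro σ hσ
    obtain ⟨q3, q4⟩ := n1 σ hσ
    have q5 := sw σ hσ
    refine dn1 hTRL hX hG 0 _ _ R d g (rpos _) (rr _ ?_ ?_) hd hg (hone _)
    · rw [abs_le] at q3 ⊢
      constructor <;> linarith
    · have q6 := abs_le.1 q5.le
      rw [abs_le] at q4 ⊢
      constructor <;> linarith
  have pb2 : ∀ σ : ℝ, (σ = 1 ∨ σ = -1) → (volume : Measure Ω).real (b2 σ) ≤ e2 := by
    intro σ hσ
    obtain ⟨q3, q4⟩ := n2 σ hσ
    have q5 := sw σ hσ
    obtain ⟨q7, q8⟩ := hu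
    refine dn1 hTRL hX hG _ _ _ R d g (rpos _) (rr _ ?_ ?_) hd hg (hone _)
    · rw [em_sub, al_sub]
      rw [abs_le] at q3 q7 ⊢
      constructor <;> linarith
    · rw [em_sub, cr_sub]
      have q6 := abs_le.1 q5.le
      rw [abs_le] at q4 q8 ⊢
      constructor <;> linarith
  have pc1 : ∀ z ∈ B, (volume : Measure Ω).real (c1 z) ≤ e3 := by
    intro z hz
    obtain ⟨-, -, -, q4⟩ := bd_pt hGEO hM.unit n w (by linarith) hn z hz
    by_cases hin : z ∈ box (8 * n)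
    · have : c1 z = ∅ := by
        rw [hc1]
        apply Set.eq_empty_of_forall_notMem
        rintro ω ⟨h, -⟩
        exact h hin
      rw [this, measureReal_empty]
      exact (Real.exp_pos _).le
    · refine le_trans (measureReal_mono (μ := (volume : Measure Ω))
        (s₂ := {ω | D (env X ω) 0 z < μ (em z) / 2}) (fun ω hω => hω.2) (measure_ne_top _ _)) ?_
      refine lo1 hLOW hX hG z (8 * m * n) (by positivity) ?_
      have := hM.ge (em z)
      have q5 := mul_le_mul_of_nonneg_left (q4 hin) hm.le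
      linarith
  set N : Set Ω := {ω | ¬ ∀ e, 0 ≤ env X ω e} with hN
  have pN : (volume : Measure Ω).real N = 0 := by
    have := cAE Ω X hX
    rw [ae_iff] at this
    rw [measureReal_def, this, ENNReal.toReal_zero]
  have hsub : {ω | ∃ z ∈ B, D (env X ω) 0 z + D (env X ω) z u < m * n + ρ} ⊆
      N ∪ ((⋃ z ∈ B, (((a1 z 1 ∪ a1 z (-1)) ∪ (a2 z 1 ∪ a2 z (-1))) ∪ c1 z)) ∪
        ((b1 1 ∪ b1 (-1)) ∪ (b2 1 ∪ b2 (-1)))) := by
    intro ω hω
    by_contra hcon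
    obtain ⟨z, hz, hlt⟩ := hω
    rw [Set.mem_union, Set.mem_union, not_or, not_or] at hcon
    obtain ⟨k0, k1, k2⟩ := hcon
    have k0' : ∀ e, 0 ≤ env X ω e := by
      by_contra h
      exact k0 h
    have k1' : ω ∉ (((a1 z 1 ∪ a1 z (-1)) ∪ (a2 z 1 ∪ a2 z (-1))) ∪ c1 z) := by
      intro h
      exact k1 (Set.mem_biUnion hz h)
    obtain ⟨q1, q2, q3, q4⟩ := bd_pt hGEO hM.unit n w (by linarith) hn z hz
    by_cases hin : z ∈ box (8 * n)
    · obtain ⟨q5, σ, hσ, q6⟩ := q3 hin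
      have A1 : ω ∉ a1 z σ := by
        intro h
        apply k1'
        rcases hσ with rfl | rfl
        · exact Or.inl (Or.inl (Or.inl h))
        · exact Or.inl (Or.inl (Or.inr h))
      have A2 : ω ∉ a2 z σ := by
        intro h
        apply k1'
        rcases hσ with rfl | rfl
        · exact Or.inl (Or.inr (Or.inl h))
        · exact Or.inl (Or.inr (Or.inr h))
      have B1 : ω ∉ b1 σ := by
        intro h
        apply k2
        rcases hσ with rfl | rfl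
        · exact Or.inl (Or.inl h)
        · exact Or.inl (Or.inr h)
      have B2 : ω ∉ b2 σ := by
        intro h
        apply k2
        rcases hσ with rfl | rfl
        · exact Or.inr (Or.inl h)
        · exact Or.inr (Or.inr h)
      have A1' : D (env X ω) z (z + (Z y (14 * n) (σ * w) - z)) ≤
        μ (em (Z y (14 * n) (σ * w) - z)) + g := not_lt.1 A1
      have A2' : D (env X ω) (Z y (-14 * n) (σ * w))
          (Z y (-14 * n) (σ * w) + (z - Z y (-14 * n) (σ * w))) ≤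
        μ (em (z - Z y (-14 * n) (σ * w))) + g := not_lt.1 A2
      have B1' : μ (em (Z y (14 * n) (σ * w))) - g ≤
        D (env X ω) 0 (0 + Z y (14 * n) (σ * w)) := not_lt.1 B1
      have B2' : μ (em (u - Z y (-14 * n) (σ * w))) - g ≤ D (env X ω) (Z y (-14 * n) (σ * w))
        (Z y (-14 * n) (σ * w) + (u - Z y (-14 * n) (σ * w))) := not_lt.1 B2
      rw [add_sub_cancel] at A1' A2' B2'
      rw [zero_add] at B1'
      have := det hGEO μ y m Cm hM hC hC0 n w g hn' hw hwn σ hσ u _ _ z hu (n1 σ hσ) (n2 σ hσ)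
        q5 q6 (env X ω) k0' A1' A2' B1' B2'
      linarith
    · have C1 : ω ∉ c1 z := fun h => k1' (Or.inr h)
      have C2 : μ (em z) / 2 ≤ D (env X ω) 0 z := by
        by_contra h
        exact C1 ⟨hin, not_le.1 h⟩
      have C3 : 0 ≤ D (env X ω) z u := (cGE (env X ω) k0' z u).2.2.1
      have C4 := hM.ge (em z)
      have C5 := mul_le_mul_of_nonneg_left (q4 hin) hm.le
      linarith
  refine (measureReal_mono hsub (measure_ne_top _ _)).trans ?_
  have f1 := un_le B (fun z => (((a1 z 1 ∪ a1 z (-1)) ∪ (a2 z 1 ∪ a2 z (-1))) ∪ c1 z))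
    (e1 + e1 + (e1 + e1) + e3) (fun z hz => u2 _ _ _ _ (u2 _ _ _ _
      (u2 _ _ _ _ (pa1 z hz 1 hσ1) (pa1 z hz (-1) hσ2))
      (u2 _ _ _ _ (pa2 z hz 1 hσ1) (pa2 z hz (-1) hσ2))) (pc1 z hz))
  have f2 := u2 _ _ _ _ (u2 _ _ _ _ (pb1 1 hσ1) (pb1 (-1) hσ2)) (u2 _ _ _ _ (pb2 1 hσ1) (pb2 (-1) hσ2))
  have f3 := u2 _ _ _ _ pN.le (u2 _ _ _ _ f1 f2)
  refine f3.trans (le_of_eq ?_)
  ring

end

end Run7.h943.FP.IEX
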