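import Pool.Agent.Run7.h943.FP.Stm

set_option autoImplicit false
open MeasureTheory ProbabilityTheory Filter Set
open scoped ENNReal Pointwise Topology

namespace Run7.h943.FP.IEX
open Pool.Agent.N662.FP Run7.h943.FP

/-! ### real analysis -/

theorem ev_pow (a b C : ℝ) (h : a < b) : ∀ᶠ n : ℕ in atTop, C * (n : ℝ) ^ a ≤ (n : ℝ) ^ b := by
  have h1 : Tendsto (fun n : ℕ => (n : ℝ) ^ (b - a)) atTop atTop :=
    (tendsto_rpow_atTop (sub_pos.2 h)).comp tendsto_natCast_atTop_atTop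
  filter_upwards [h1.eventually_ge_atTop C, eventually_gt_atTop 0] with n h2 h3
  have hn : (0 : ℝ) < n := by exact_mod_cast h3
  have h4 : (n : ℝ) ^ b = (n : ℝ) ^ (b - a) * (n : ℝ) ^ a := by
    rw [← Real.rpow_add hn]; congr 1; ring
  rw [h4]
  exact mul_le_mul_of_nonneg_right h2 (by positivity)

theorem ev_exp (K c ε η : ℝ) (hc : 0 < c) (hε : 0 < ε) (hη : 0 < η) :
    ∀ᶠ n : ℕ in atTop, K * (n : ℝ) ^ 2 * Real.exp (-(c * (n : ℝ) ^ ε)) ≤ η := by
  have h1 := (isLittleO_exp_neg_mul_rpow_atTop hc (-3 / ε)).comp_tendsto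
    ((tendsto_rpow_atTop hε).comp tendsto_natCast_atTop_atTop)
  have h2 := h1.bound one_pos
  have h3 : Tendsto (fun n : ℕ => |K| / (n : ℝ)) atTop (𝓝 0) := tendsto_const_div_atTop_nhds_zero_nat |K|
  filter_upwards [h2, h3.eventually (gt_mem_nhds hη), eventually_gt_atTop 0] with n h4 h5 h6
  have hn : (0 : ℝ) < n := by exact_mod_cast h6
  simp only [Function.comp, one_mul] at h4
  rw [Real.norm_of_nonneg (Real.exp_pos _).le, Real.norm_of_nonneg (by positivity),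
    ← Real.rpow_mul hn.le, show ε * (-3 / ε) = -(3 : ℕ) by field_simp; norm_num, Real.rpow_neg hn.le,
    Real.rpow_natCast, ← neg_mul_eq_neg_mul] at h4
  calc K * (n : ℝ) ^ 2 * Real.exp (-(c * (n : ℝ) ^ ε))
      ≤ |K| * (n : ℝ) ^ 2 * ((n : ℝ) ^ 3)⁻¹ := by
        refine mul_le_mul ?_ h4 (Real.exp_pos _).le (by positivity)
        exact mul_le_mul_of_nonneg_right (le_abs_self K) (by positivity)
    _ = |K| / n := by field_simp
    _ ≤ η := h5.le

/-! ### linear algebra -/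

theorem abs_le_one {y : ℝ × ℝ} (hy : y.1 ^ 2 + y.2 ^ 2 = 1) : |y.1| ≤ 1 ∧ |y.2| ≤ 1 := by
  constructor
  · rw [← sq_le_one_iff_abs_le_one]; nlinarith [sq_nonneg y.2]
  · rw [← sq_le_one_iff_abs_le_one]; nlinarith [sq_nonneg y.1]

theorem mu_le (μ : Seminorm ℝ (ℝ × ℝ)) (y : ℝ × ℝ) (m Cm : ℝ) (hM : MinDir μ y m)
    (hC : ∀ x, μ x ≤ Cm * eu x) (x : ℝ × ℝ) : μ x ≤ m * |al y x| + Cm * |cr y x| := by
  have h1 : x = (al y x) • y + (cr y x) • ((-y.2, y.1) : ℝ × ℝ) := by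
    have := hM.unit
    ext
    · simp only [al, cr, Prod.fst_add, Prod.smul_fst, smul_eq_mul]
      linear_combination (-x.1) * this
    · simp only [al, cr, Prod.snd_add, Prod.smul_snd, smul_eq_mul]
      linear_combination (-x.2) * this
  have h2 : eu (-y.2, y.1) = 1 := by
    have := hM.unit
    unfold eu
    rw [show ((-y.2, y.1) : ℝ × ℝ).1 ^ 2 + ((-y.2, y.1) : ℝ × ℝ).2 ^ 2 = 1 by
      simp only; linarith]
    exact Real.sqrt_one
  calc μ x = μ ((al y x) • y + (cr y x) • ((-y.2, y.1) : ℝ × ℝ)) := by rw [← h1]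
    _ ≤ μ ((al y x) • y) + μ ((cr y x) • ((-y.2, y.1) : ℝ × ℝ)) := map_add_le_add _ _ _
    _ = |al y x| * μ y + |cr y x| * μ (-y.2, y.1) := by
        rw [map_smul_eq_mul, map_smul_eq_mul, Real.norm_eq_abs, Real.norm_eq_abs]
    _ ≤ _ := by
        rw [hM.eq]
        have := hC (-y.2, y.1)
        rw [h2, mul_one] at this
        have h3 := mul_le_mul_of_nonneg_left this (abs_nonneg (cr y x))
        linarith

theorem al_sub (y a b : ℝ × ℝ) : al y (a - b) = al y a - al y b := by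
  simp only [al, Prod.fst_sub, Prod.snd_sub]; ring
theorem cr_sub (y a b : ℝ × ℝ) : cr y (a - b) = cr y a - cr y b := by
  simp only [cr, Prod.fst_sub, Prod.snd_sub]; ring

theorem em_sub (a b : ℤ × ℤ) : em (a - b) = em a - em b := by
  simp [Pool.Agent.N662.FP.em]

/-- a point whose coordinates are within `1` of those of `s y + r y'` -/
theorem near {y : ℝ × ℝ} (hy : y.1 ^ 2 + y.2 ^ 2 = 1) (s r : ℝ) (v : ℤ × ℤ)
    (h1 : |(v.1 : ℝ) - (s * y.1 - r * y.2)| ≤ 1) (h2 : |(v.2 : ℝ) - (s * y.2 + r * y.1)| ≤ 1) :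
    |al y (em v) - s| ≤ 2 ∧ |cr y (em v) - r| ≤ 2 := by
  obtain ⟨a1, a2⟩ := abs_le_one hy
  constructor
  · have e : al y (em v) - s = ((v.1 : ℝ) - (s * y.1 - r * y.2)) * y.1 +
        ((v.2 : ℝ) - (s * y.2 + r * y.1)) * y.2 := by
      simp only [al, Pool.Agent.N662.FP.em]
      linear_combination (s) * hy
    rw [e]
    refine (abs_add_le _ _).trans ?_
    rw [abs_mul, abs_mul]
    nlinarith [abs_nonneg y.1, abs_nonneg y.2, abs_nonneg ((v.1 : ℝ) - (s * y.1 - r * y.2)),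
      abs_nonneg ((v.2 : ℝ) - (s * y.2 + r * y.1))]
  · have e : cr y (em v) - r = ((v.2 : ℝ) - (s * y.2 + r * y.1)) * y.1 -
        ((v.1 : ℝ) - (s * y.1 - r * y.2)) * y.2 := by
      simp only [cr, Pool.Agent.N662.FP.em]
      linear_combination (r) * hy
    rw [e]
    refine (abs_sub _ _).trans ?_
    rw [abs_mul, abs_mul]
    nlinarith [abs_nonneg y.1, abs_nonneg y.2, abs_nonneg ((v.1 : ℝ) - (s * y.1 - r * y.2)),
      abs_nonneg ((v.2 : ℝ) - (s * y.2 + r * y.1))]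

/-- the deterministic inequality -/
theorem det (hGEO : S_GEO) (μ : Seminorm ℝ (ℝ × ℝ)) (y : ℝ × ℝ) (m Cm : ℝ) (hM : MinDir μ y m)
    (hC : ∀ x, μ x ≤ Cm * eu x) (hC0 : 0 ≤ Cm) (n w g : ℝ) (hn : 1 ≤ n) (hw : 12 ≤ w) (hwn : w ≤ n)
    (σ : ℝ) (hσ : σ = 1 ∨ σ = -1)
    (u z1 z2 z : ℤ × ℤ)
    (hu : |al y (em u) - n| ≤ 2 ∧ |cr y (em u)| ≤ 2)
    (h1 : |al y (em z1) - 14 * n| ≤ 2 ∧ |cr y (em z1) - σ * w| ≤ 2)
    (h2 : |al y (em z2) - (-14 * n)| ≤ 2 ∧ |cr y (em z2) - σ * w| ≤ 2)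
    (hz : |al y (em z)| ≤ 12 * n) (hz2 : |cr y (em z) - σ * w| ≤ 1)
    (x : Sym2 (ℤ × ℤ) → ℝ) (hx : ∀ e, 0 ≤ x e)
    (U1 : D x z z1 ≤ μ (em (z1 - z)) + g) (U2 : D x z2 z ≤ μ (em (z - z2)) + g)
    (L1 : μ (em z1) - g ≤ D x 0 z1) (L2 : μ (em (u - z2)) - g ≤ D x z2 u) :
    m * n + m * w ^ 2 / (39 * n) - 10 * m - 6 * Cm - 4 * g ≤ D x 0 z + D x z u := by
  have hm := hM.pos
  obtain ⟨hu1, hu2⟩ := hu
  obtain ⟨h11, h12⟩ := h1
  obtain ⟨h21, h22⟩ := h2
  rw [abs_le] at hu1 hu2 h11 h12 h21 h22 hz hz2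
  have t1 : D x 0 z1 ≤ D x 0 z + D x z z1 := cTRI x hx 0 z z1
  have t2 : D x z2 u ≤ D x z2 z + D x z u := cTRI x hx z2 z u
  -- upper bounds
  have m1 : μ (em (z1 - z)) ≤ m * (14 * n + 2 - al y (em z)) + Cm * 3 := by
    refine (mu_le μ y m Cm hM hC _).trans ?_
    rw [em_sub, al_sub, cr_sub]
    have e1 : |al y (em z1) - al y (em z)| ≤ 14 * n + 2 - al y (em z) := by
      rw [abs_le]; constructor <;> linarith
    have e2 : |cr y (em z1) - cr y (em z)| ≤ 3 := by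
      rw [abs_le]; constructor <;> linarith
    exact add_le_add (mul_le_mul_of_nonneg_left e1 hm.le) (mul_le_mul_of_nonneg_left e2 hC0)
  have m2 : μ (em (z - z2)) ≤ m * (14 * n + 2 + al y (em z)) + Cm * 3 := by
    refine (mu_le μ y m Cm hM hC _).trans ?_
    rw [em_sub, al_sub, cr_sub]
    have e1 : |al y (em z) - al y (em z2)| ≤ 14 * n + 2 + al y (em z) := by
      rw [abs_le]; constructor <;> linarith
    have e2 : |cr y (em z) - cr y (em z2)| ≤ 3 := by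
      rw [abs_le]; constructor <;> linarith
    exact add_le_add (mul_le_mul_of_nonneg_left e1 hm.le) (mul_le_mul_of_nonneg_left e2 hC0)
  -- lower bounds
  obtain ⟨-, g1, g2, -, -, -⟩ := hGEO y hM.unit
  have l1 := hM.ge (em z1)
  have l2 := hM.ge (em (u - z2))
  have l3 := g1 (em z1) (em (u - z2))
  have l4 : 29 * n - 6 ≤ al y (em z1) + al y (em (u - z2)) := by
    rw [em_sub, al_sub]; linarith
  have l5 : 2 * w - 6 ≤ |cr y (em z1)| + |cr y (em (u - z2))| := by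
    rw [em_sub, cr_sub]
    rcases hσ with rfl | rfl
    · have a1 := le_abs_self (cr y (em z1))
      have a2 := neg_abs_le (cr y (em u) - cr y (em z2))
      linarith
    · have a1 := neg_abs_le (cr y (em z1))
      have a2 := le_abs_self (cr y (em u) - cr y (em z2))
      linarith
  have l6 := g2 (29 * n - 6) (2 * w - 6) (by linarith) (by linarith)
  have l7 : √((29 * n - 6) ^ 2 + (2 * w - 6) ^ 2) ≤
      √((al y (em z1) + al y (em (u - z2))) ^ 2 + (|cr y (em z1)| + |cr y (em (u - z2))|) ^ 2) := by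
    apply Real.sqrt_le_sqrt
    have a1 : (29 * n - 6) ^ 2 ≤ (al y (em z1) + al y (em (u - z2))) ^ 2 :=
      pow_le_pow_left₀ (by linarith) l4 2
    have a2 : (2 * w - 6) ^ 2 ≤ (|cr y (em z1)| + |cr y (em (u - z2))|) ^ 2 :=
      pow_le_pow_left₀ (by linarith) l5 2
    linarith
  have l8 : 29 * n - 6 + w ^ 2 / (39 * n) ≤ eu (em z1) + eu (em (u - z2)) := by
    refine le_trans ?_ (l6.trans (l7.trans l3))
    have a1 : w ^ 2 / (39 * n) ≤ (2 * w - 6) ^ 2 / (3 * (29 * n - 6)) := by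
      rw [div_le_div_iff₀ (by linarith) (by nlinarith)]
      have a2 : (3 / 2 * w) ^ 2 ≤ (2 * w - 6) ^ 2 := pow_le_pow_left₀ (by linarith) (by linarith) 2
      have a3 : w ^ 2 * (3 * (29 * n - 6)) ≤ w ^ 2 * (87 * n) :=
        mul_le_mul_of_nonneg_left (by linarith) (sq_nonneg w)
      have a4 : (3 / 2 * w) ^ 2 * (39 * n) ≤ (2 * w - 6) ^ 2 * (39 * n) :=
        mul_le_mul_of_nonneg_right a2 (by linarith)
      nlinarith [mul_nonneg (sq_nonneg w) (by linarith : (0 : ℝ) ≤ n)]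
    linarith
  have l9 := mul_le_mul_of_nonneg_left l8 hm.le
  have e9 : m * (29 * n - 6 + w ^ 2 / (39 * n)) = 29 * (m * n) - 6 * m + m * w ^ 2 / (39 * n) := by
    ring
  rw [e9] at l9
  nlinarith

end Run7.h943.FP.IEX
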