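import Pool.Agent.N662.FP.Cl

/-!
# Planar first-passage percolation: both one-sided shape fluctuations are at least `t^(1/5)`

Page `MP_de94ef_pr`, hand-in `OneSidedLower` (helper943). Statements of the pieces. Every `S_XXX` is
a closed proposition with its proof in the doc string. A piece is proved in a file
`Pool/Agent/Run7/<you>/FP/<PIECE>.lean`, theorem `t_XXX`. All the facts `cXXX : S_XXX` of
`Pool.Agent.N662.FP.Cl` (imported here) may be used: `cPATH cGE cAE cLC cME cINT cTI cTRI cSUB cFAT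
cNORM cTIL cREV cSAW`, and `Pool.Agent.N887.FL.t_FIN : S_FIN`.
-/

set_option autoImplicit false
open MeasureTheory ProbabilityTheory Filter Set
open scoped ENNReal Pointwise Topology

namespace Run7.h943.FP

open Pool.Agent.N662.FP

/-! ### geometry -/

/-- nearest neighbours (as in `PS`) -/
def Adj (a b : ℤ × ℤ) : Prop := |b.1 - a.1| + |b.2 - a.2| = 1

/-- Euclidean norm -/
noncomputable def eu (x : ℝ × ℝ) : ℝ := √(x.1 ^ 2 + x.2 ^ 2)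
/-- coordinate along `y` -/
def al (y x : ℝ × ℝ) : ℝ := x.1 * y.1 + x.2 * y.2
/-- coordinate across `y` -/
def cr (y x : ℝ × ℝ) : ℝ := x.2 * y.1 - x.1 * y.2

/-- `y` is a unit vector at which `μ` is minimal on the unit circle, with minimum `m` -/
structure MinDir (μ : Seminorm ℝ (ℝ × ℝ)) (y : ℝ × ℝ) (m : ℝ) : Prop where
  unit : y.1 ^ 2 + y.2 ^ 2 = 1
  pos : 0 < m
  eq : μ y = m
  ge : ∀ x, m * eu x ≤ μ x

/-- the box of radius `R` -/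
noncomputable def box (R : ℕ) : Finset (ℤ × ℤ) := Finset.Icc (-(R : ℤ)) R ×ˢ Finset.Icc (-(R : ℤ)) R

/-- the tube of half-width `w` around the line `ℝ y`, in the box of radius `R` -/
noncomputable def tube (y : ℝ × ℝ) (R : ℕ) (w : ℝ) : Finset (ℤ × ℤ) := by
  classical
  exact (box R).filter (fun v => |cr y (em v)| ≤ w)

/-- the four unit steps -/
def nb : Finset (ℤ × ℤ) := {(1, 0), (-1, 0), (0, 1), (0, -1)}

/-- the edges which start in `K` -/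
noncomputable def edg (K : Finset (ℤ × ℤ)) : Finset (Sym2 (ℤ × ℤ)) :=
  (K ×ˢ nb).image (fun z => s(z.1, z.1 + z.2))

/-- the outer boundary of `K` -/
noncomputable def bd (K : Finset (ℤ × ℤ)) : Finset (ℤ × ℤ) :=
  ((K ×ˢ nb).image (fun z => z.1 + z.2)).filter (fun z => z ∉ K)

/-- the weights of the edges in `F` are multiplied by `c` -/
noncomputable def sc (F : Finset (Sym2 (ℤ × ℤ))) (c : ℝ) (x : Sym2 (ℤ × ℤ) → ℝ) : Sym2 (ℤ × ℤ) → ℝ :=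
  fun e => if e ∈ F then c * x e else x e

/-- DIR. The minimum of a norm on the unit circle (compactness; a seminorm on `ℝ × ℝ` is
continuous; homogeneity). -/
def S_DIR : Prop := ∀ μ : Seminorm ℝ (ℝ × ℝ), (∀ x, μ x = 0 → x = 0) →
  ∃ (y : ℝ × ℝ) (m : ℝ), MinDir μ y m

/-- GEO. Elementary facts on the tube (`card_tube` of `Pool/Agent/W822/Tube.lean` can be copied:
at most `(2R+1)(4w+1)` vertices), and the triangle inequality in the coordinates `al`, `cr`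
(`al ^ 2 + cr ^ 2 = eu ^ 2` for a unit vector `y`). A neighbour changes `al` and `cr` by at most
`1`. -/
def S_GEO : Prop := ∀ (y : ℝ × ℝ), y.1 ^ 2 + y.2 ^ 2 = 1 →
  (∀ (R : ℕ) (w : ℝ), 0 ≤ w →
    (0 : ℤ × ℤ) ∈ tube y R w ∧
    ((edg (tube y R w)).card : ℝ) ≤ 4 * ((2 * R + 1) * (4 * w + 1)) ∧
    ((bd (tube y R w)).card : ℝ) ≤ 4 * (2 * R + 1) ^ 2 ∧
    (∀ a ∈ tube y R w, ∀ b ∈ tube y R w, Adj a b → s(a, b) ∈ edg (tube y R w)) ∧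
    (∀ a ∈ tube y R w, ∀ z, z ∉ tube y R w → Adj a z → z ∈ bd (tube y R w)) ∧
    (∀ z ∈ bd (tube y R w), z ∈ box (R + 1) ∧
      (z ∉ box R ∨ (w < |cr y (em z)| ∧ |cr y (em z)| ≤ w + 1)))) ∧
  (∀ a b : ℝ × ℝ, √((al y a + al y b) ^ 2 + (|cr y a| + |cr y b|) ^ 2) ≤ eu a + eu b) ∧
  (∀ I w : ℝ, 0 < w → w ≤ I → I + w ^ 2 / (3 * I) ≤ √(I ^ 2 + w ^ 2)) ∧
  (∀ a b : ℤ × ℤ, Adj a b → |al y (em b) - al y (em a)| ≤ 1 ∧ |cr y (em b) - cr y (em a)| ≤ 1) ∧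
  (∀ x : ℝ × ℝ, eu x ^ 2 = al y x ^ 2 + cr y x ^ 2) ∧
  (∀ x : ℝ × ℝ, |al y x| ≤ eu x ∧ |cr y x| ≤ eu x ∧ |x.1| ≤ eu x ∧ |x.2| ≤ eu x ∧
    eu x ≤ |x.1| + |x.2|)

/-! ### the two-point inequality for exponential weights -/

/-- SQ. Two sets which are far apart in the coordinates `√x` cannot both be likely.

If `x` is `Exp(1)` then `r = √x` has the density `ρ(r) = 2 r exp (-r ^ 2)` on `r > 0`, i.e.
`expMeasure 1 = (volume.withDensity ρ).map (fun r => r ^ 2)` (compare the measures of `Iic x`).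
For `r, s > 0`: `ρ r * ρ s ≤ (ρ ((r + s) / 2)) ^ 2 * exp (-(r - s) ^ 2 / 2)`, since
`r s ≤ ((r+s)/2)^2` and `r^2 + s^2 = 2 ((r+s)/2)^2 + (r-s)^2/2`. Put
`A' = {r | r ≥ 0, (r i ^ 2) ∈ A}` and `B'` likewise, and use Prekopa-Leindler
`Pool.Agent.Helper392.Mey.PL.pln` (see `Pool/Agent/N521/FL/PLE.lean`) for the functions
`1_{A'} ∏ ρ`, `1_{B'} ∏ ρ` and `exp (-d^2/4) ∏ ρ`. -/
def S_SQ : Prop := ∀ (n : ℕ) (A B : Set (Fin n → ℝ)) (d : ℝ), MeasurableSet A → MeasurableSet B →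
  0 ≤ d →
  (∀ a ∈ A, ∀ b ∈ B, (∀ i, 0 ≤ a i) → (∀ i, 0 ≤ b i) → d ^ 2 ≤ ∑ i, (√(a i) - √(b i)) ^ 2) →
  (Measure.pi fun _ : Fin n => expMeasure 1) A * (Measure.pi fun _ : Fin n => expMeasure 1) B ≤
    ENNReal.ofReal (Real.exp (-(d ^ 2 / 2)))

/-- TWO (from `S_SQ`). The two-point inequality.

Let `SW x N t` say that all self-avoiding paths of length `≤ N` from `0` to `v` have time `≥ t`.
For `x ≥ 0`: `t ≤ D x 0 v ↔ ∀ N, SW x N t` (`cSAW`, `cGE`). The event depends on finitely many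
edges (`S_FIN`), so as in `Pool/Agent/N36/FL/Win.lean` it can be transported to `Fin n → ℝ`. For
`x ∈ SW N (a^2)` and `x' ∉ SW N (b'^2)`, `b' > b`: a self-avoiding path `p` has
`∑ x' < b'^2`, `∑ x ≥ a^2`, its edges are distinct, so (reverse triangle inequality in `ℓ²`)
`∑ (√x - √x')^2 ≥ (a - b')^2`. By `S_SQ`,
`P (SW N (a^2)) P (¬ SW N (b'^2)) ≤ exp (-(a-b')^2/2)`. Let `N → ∞` (monotone events), then
`b' → b`, using `{D ≤ b^2} ⊆ {D < b'^2}` (if `b = a` the claim is trivial). -/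
def S_TWO : Prop := ∀ (Ω : Type) [MeasureSpace Ω] [IsProbabilityMeasure (volume : Measure Ω)]
  (X : Sym2 (ℤ × ℤ) → Ω → ℝ), Iid X → ∀ (v : ℤ × ℤ) (a b : ℝ), 0 ≤ b → b ≤ a →
  (volume : Measure Ω).real {ω | a ^ 2 ≤ D (env X ω) 0 v} *
    (volume : Measure Ω).real {ω | D (env X ω) 0 v ≤ b ^ 2} ≤ Real.exp (-((a - b) ^ 2 / 2))

/-- PMU. The passage time is at least the time constant with probability at least `1/e`.

If `P (μ ≤ T) < 1/e`, take `d > 0` with `P (μ ≤ T) ≤ exp (-(1+d))` (`ex_d`); by `Good.one`,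
`∫ |T - μ| ≤ 2 (1+1/d) r` for all `r > 0`, so it is `0` and `T = μ` almost surely. -/
def S_PMU : Prop := ∀ (Ω : Type) [MeasureSpace Ω] [IsProbabilityMeasure (volume : Measure Ω)]
  (T : Ω → ℤ × ℤ → ℝ) (μ : Seminorm ℝ (ℝ × ℝ)), Good T μ → ∀ v : ℤ × ℤ,
  Real.exp (-1) ≤ (volume : Measure Ω).real {ω | μ (em v) ≤ T ω v}

/-- TRL. Translation invariance of the lower tail (complement of `cTIL`, with `cME`, `cAE` for the
null-measurability). -/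
def S_TRL : Prop := ∀ (Ω : Type) [MeasureSpace Ω] [IsProbabilityMeasure (volume : Measure Ω)]
  (X : Sym2 (ℤ × ℤ) → Ω → ℝ), Iid X → ∀ (a v : ℤ × ℤ) (s : ℝ),
  (volume : Measure Ω).real {ω | D (env X ω) a (a + v) < s} =
    (volume : Measure Ω).real {ω | D (env X ω) 0 v < s} ∧
  (volume : Measure Ω).real {ω | D (env X ω) 0 v < s} =
    1 - (volume : Measure Ω).real {ω | s ≤ D (env X ω) 0 v}

/-- LOW (from `S_TWO`, `S_PMU`). Gaussian lower tail: `S_TWO` with `a = √μ`, `b = √(μ - s)`,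
`a - b ≥ s / (2 √μ)`. -/
def S_LOW : Prop := ∀ (Ω : Type) [MeasureSpace Ω] [IsProbabilityMeasure (volume : Measure Ω)]
  (X : Sym2 (ℤ × ℤ) → Ω → ℝ), Iid X → ∀ (μ : Seminorm ℝ (ℝ × ℝ)),
  Good (fun ω v => D (env X ω) 0 v) μ → ∀ (v : ℤ × ℤ) (s : ℝ), 0 < μ (em v) → 0 ≤ s →
  s ≤ μ (em v) →
  (volume : Measure Ω).real {ω | D (env X ω) 0 v < μ (em v) - s} ≤
    Real.exp (1 - s ^ 2 / (8 * μ (em v)))

/-- CM. Change of measure. Let `F` be finite and `0 < c < 2`. The law of `c x`, `x ~ Exp(1)`, has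
the density `ρ(x) = c⁻¹ exp (x - x / c)` with respect to `Exp(1)`, and
`∫ ρ^2 d Exp(1) = 1 / (c (2 - c))`. Write the environment as the pair of its restrictions `x_F`
and `x_{F^c}`, which are independent. For fixed `x_{F^c}`, with the section `B_x` of `B`,
`P (c x_F ∈ B_x) = ∫ 1_{B_x} ∏ ρ ≤ (P (x_F ∈ B_x))^(1/2) (∫ ∏ ρ^2)^(1/2)` (Cauchy-Schwarz), and
`(∫ g^(1/2))^2 ≤ ∫ g` for the integral over `x_{F^c}`. (Or: `P' = law of sc F c x` has the density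
`∏_{e ∈ F} ρ (x e)` with respect to `P = law of x` and Cauchy-Schwarz at once.) -/
def S_CM : Prop := ∀ (Ω : Type) [MeasureSpace Ω] [IsProbabilityMeasure (volume : Measure Ω)]
  (X : Sym2 (ℤ × ℤ) → Ω → ℝ), Iid X → ∀ (F : Finset (Sym2 (ℤ × ℤ))) (c : ℝ), 0 < c → c < 2 →
  ∀ B : Set (Sym2 (ℤ × ℤ) → ℝ), MeasurableSet B →
  ((volume : Measure Ω).real {ω | sc F c (env X ω) ∈ B}) ^ 2 ≤
    (1 / (c * (2 - c))) ^ F.card * (volume : Measure Ω).real {ω | env X ω ∈ B}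

/-- CMD (from `S_CM`). The same for the passage times: use `cME` (the set
`{x | t ≤ D (fun e => max (x e) 0) 0 v}` is measurable) and `cAE`. -/
def S_CMD : Prop := ∀ (Ω : Type) [MeasureSpace Ω] [IsProbabilityMeasure (volume : Measure Ω)]
  (X : Sym2 (ℤ × ℤ) → Ω → ℝ), Iid X → ∀ (F : Finset (Sym2 (ℤ × ℤ))) (c : ℝ), 0 < c → c < 2 →
  ∀ (v : ℤ × ℤ) (t : ℝ),
  ((volume : Measure Ω).real {ω | t ≤ D (sc F c (env X ω)) 0 v}) ^ 2 ≤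
    (1 / (c * (2 - c))) ^ F.card * (volume : Measure Ω).real {ω | t ≤ D (env X ω) 0 v} ∧
  ((volume : Measure Ω).real {ω | D (sc F c (env X ω)) 0 v < t}) ^ 2 ≤
    (1 / (c * (2 - c))) ^ F.card * (volume : Measure Ω).real {ω | D (env X ω) 0 v < t}

/-! ### deterministic facts on paths -/

/-- EXI. A path from `0` to `u` either stays in `K`, and its time in the environment `sc F c x` is
`c` times its time in `x`, or it passes through a vertex `z ∉ K` adjacent to a vertex of `K` (first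
exit), and then its time in `x` (which is at most its time in `sc F c x`, as `1 ≤ c`) is at least
`D x 0 z + D x z u`. -/
def S_EXI : Prop := ∀ x : Sym2 (ℤ × ℤ) → ℝ, (∀ e, 0 ≤ x e) → ∀ (K : Finset (ℤ × ℤ))
  (F : Finset (Sym2 (ℤ × ℤ))) (c t : ℝ) (u : ℤ × ℤ), 1 ≤ c → 0 ∈ K →
  (∀ a ∈ K, ∀ b ∈ K, Adj a b → s(a, b) ∈ F) →
  (∀ a ∈ K, ∀ z, z ∉ K → Adj a z → t ≤ D x 0 z + D x z u) →
  min (c * D x 0 u) t ≤ D (sc F c x) 0 u

/-- EXO. If `D x 0 u < t` then some path has time `< t` in `x`; it stays in `K`, since otherwise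
its time is at least `D x 0 z + D x z u ≥ t` for the first exit `z`. So its time in `sc F c x` is
`c` times its time in `x`. -/
def S_EXO : Prop := ∀ x : Sym2 (ℤ × ℤ) → ℝ, (∀ e, 0 ≤ x e) → ∀ (K : Finset (ℤ × ℤ))
  (F : Finset (Sym2 (ℤ × ℤ))) (c t : ℝ) (u : ℤ × ℤ), 0 < c → 0 ∈ K →
  (∀ a ∈ K, ∀ b ∈ K, Adj a b → s(a, b) ∈ F) →
  (∀ a ∈ K, ∀ z, z ∉ K → Adj a z → t ≤ D x 0 z + D x z u) →
  D x 0 u < t → D (sc F c x) 0 u < c * t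

/-- SPD. Splitting a path in `M` parts. Take a path from `0` to `Z` with time `< t`. It stays in
`box R` (its first vertex `z` outside is in `box (R+1)`, and `D x 0 z` is at most the time of
the path). Let `z_0 = 0` and let `z_i` be the first vertex with `al y ≥ i n`, `1 ≤ i ≤ M`;
`al y z_i ≤ i n + 1` as `al` changes by at most `1` in a step (for `i ≥ 1`, since the vertex before
has `al y < i n`). The parts between `z_i` and `z_(i+1)` are disjoint pieces of the path, so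
`∑ D x z_i z_(i+1) < t`, and one term is `< t / M`. -/
def S_SPD : Prop := ∀ x : Sym2 (ℤ × ℤ) → ℝ, (∀ e, 0 ≤ x e) → ∀ y : ℝ × ℝ,
  y.1 ^ 2 + y.2 ^ 2 = 1 → ∀ (M R : ℕ) (n t : ℝ) (Z : ℤ × ℤ), 1 ≤ M → 1 ≤ n →
  M * n ≤ al y (em Z) → D x 0 Z < t → (∀ z ∈ box (R + 1), z ∉ box R → t ≤ D x 0 z) →
  ∃ a ∈ box R, ∃ u ∈ box (2 * R), n - 1 ≤ al y (em u) ∧ D x a (a + u) < t / M

/-! ### the rate of convergence in the direction `y` -/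

section
variable {Ω : Type} [MeasureSpace Ω]

/-- some vertex beyond `N` in the direction `y` is reached before `t` with probability `≥ 1/2` -/
def Q (X : Sym2 (ℤ × ℤ) → Ω → ℝ) (y : ℝ × ℝ) (N t : ℝ) : Prop := ∃ Z : ℤ × ℤ, N ≤ al y (em Z) ∧
  1 / 2 ≤ (volume : Measure Ω).real {ω | D (env X ω) 0 Z < t}

/-- the time constant -/
def TC (X : Sym2 (ℤ × ℤ) → Ω → ℝ) (μ : Seminorm ℝ (ℝ × ℝ)) : Prop := ∀ z : ℤ × ℤ,
  ∀ᵐ ω ∂(volume : Measure Ω),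
    Tendsto (fun n : ℕ => D (env X ω) 0 ((n : ℤ) • z) / (n : ℝ)) atTop (𝓝 (μ (em z)))

end

/-- SPL (from `S_SPD`, `S_LOW`, `S_TRL`). Let `R = ⌈4 t / m⌉₊`. If `z ∈ box (R+1)`, `z ∉ box R`
then `μ z ≥ m eu z ≥ m (R+1) ≥ 4 t`, and by `S_LOW` with `s = μ z / 2`,
`P (D 0 z < t) ≤ P (D 0 z < μ z / 2) ≤ exp (1 - μ z / 32) ≤ exp (1 - t / 8)`. There are at most
`(2R+3)^2` such `z`; so for `t ≥ t0` the event `∃ z, D 0 z < t` has probability `≤ 1/4`. By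
`S_SPD`, with probability `≥ 1/4` there are `a ∈ box R`, `u ∈ box (2R)` with `n - 1 ≤ al y u`,
`D a (a+u) < t / M`. Union bound over at most `(2R+1)^2 (4R+1)^2 ≤ C t^4 / 4` pairs and `S_TRL`. -/
def S_SPL : Prop := ∀ (Ω : Type) [MeasureSpace Ω] [IsProbabilityMeasure (volume : Measure Ω)]
  (X : Sym2 (ℤ × ℤ) → Ω → ℝ), Iid X → ∀ (μ : Seminorm ℝ (ℝ × ℝ)),
  Good (fun ω v => D (env X ω) 0 v) μ → ∀ (y : ℝ × ℝ) (m : ℝ), MinDir μ y m →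
  ∃ C t0 : ℝ, 1 ≤ C ∧ 1 ≤ t0 ∧ ∀ (M : ℕ) (n t : ℝ), 1 ≤ M → 1 ≤ n → t0 ≤ t → Q X y (M * n) t →
    ∃ u : ℤ × ℤ, n - 1 ≤ al y (em u) ∧
      1 / (C * t ^ 4) ≤ (volume : Measure Ω).real {ω | D (env X ω) 0 u < t / M}

/-- HALF (from `S_SPL` with `M = 2`, `S_TWO`, `S_TRL`). Let `b = √(t/2)`, `p = 1/(C t^4)`,
`δ = √(2 log (2/p))`, `a = b + δ`. By `S_TWO`, `P (a^2 ≤ D 0 u) ≤ exp (-δ^2/2) / p = 1/2`, so
`P (D 0 u < a^2) ≥ 1/2`, and `a^2 = t/2 + 2 b δ + δ^2 ≤ t/2 + t^(3/4)` for large `t`. -/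
def S_HALF : Prop := ∀ (Ω : Type) [MeasureSpace Ω] [IsProbabilityMeasure (volume : Measure Ω)]
  (X : Sym2 (ℤ × ℤ) → Ω → ℝ), Iid X → ∀ (μ : Seminorm ℝ (ℝ × ℝ)),
  Good (fun ω v => D (env X ω) 0 v) μ → ∀ (y : ℝ × ℝ) (m : ℝ), MinDir μ y m →
  ∃ t0 : ℝ, 1 ≤ t0 ∧ ∀ (n t : ℝ), 1 ≤ n → t0 ≤ t → Q X y (2 * n) t →
    Q X y (n - 1) (t / 2 + t ^ (3 / 4 : ℝ))

/-- LIM. Take `k` large and a lattice point `z` with `|z.1 - k y.1| ≤ 1`, `|z.2 - k y.2| ≤ 1`: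
`al y z ≥ k - 2`, `μ z ≤ m k + C`, so `μ z / al y z ≤ m + η / 4`. For `N` large put
`j = ⌈N / al y z⌉₊`, `Z = j • z`; `al y Z ≥ N`. Almost sure convergence gives convergence in
probability: `P (D 0 (j • z) < j (μ z + η'))  → 1` as `j → ∞`, and
`j (μ z + η') ≤ (N / al y z + 1) (μ z + η') ≤ (m + η) N` for `N` large. -/
def S_LIM : Prop := ∀ (Ω : Type) [MeasureSpace Ω] [IsProbabilityMeasure (volume : Measure Ω)]
  (X : Sym2 (ℤ × ℤ) → Ω → ℝ), Iid X → ∀ (μ : Seminorm ℝ (ℝ × ℝ)), TC X μ →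
  ∀ (y : ℝ × ℝ) (m : ℝ), MinDir μ y m → ∀ η : ℝ, 0 < η →
  ∀ᶠ N : ℝ in atTop, Q X y N ((m + η) * N)

/-- RT (pure analysis). Let `N` be large, `L_k = 2^k (N+2)`, `N_k = L_k - 2`, so
`N_k = 2 (N_(k-1) + 1)` and `N_0 = N`. Let `η = N^(-1/4)`; for some `k`, `Q N_k ((m+η) N_k)`, so
`Q N_k ((m+η) L_k)`. Go down: if `Q N_j (a_j L_j)`, `a_j ≥ m`, then `Q N_(j-1) (a_(j-1) L_(j-1))`
with `a_(j-1) = a_j + 2 a_j^(3/4) L_j^(-1/4)`. As long as `a_j ≤ m + 2` (which persists for `N`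
large) the total increase is at most `2 (m+2)^(3/4) (N+2)^(-1/4) ∑_(j≥1) 2^(-j/4)
≤ C1 (N+2)^(-1/4)`. So `Q N (a_0 (N+2))` with `a_0 ≤ m + N^(-1/4) + C1 (N+2)^(-1/4)`. -/
def S_RT : Prop := ∀ (Q : ℝ → ℝ → Prop) (m t0 : ℝ), 0 < m →
  (∀ N t t' : ℝ, t ≤ t' → Q N t → Q N t') →
  (∀ n t : ℝ, 1 ≤ n → t0 ≤ t → Q (2 * n) t → Q (n - 1) (t / 2 + t ^ (3 / 4 : ℝ))) →
  (∀ η : ℝ, 0 < η → ∀ᶠ N : ℝ in atTop, Q N ((m + η) * N)) →
  ∃ C : ℝ, 0 < C ∧ ∀ᶠ N : ℝ in atTop, Q N (m * N + C * N ^ (3 / 4 : ℝ))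

/-- POLY (from `S_SPL`, `S_HALF`, `S_LIM`, `S_RT`). With `M = n^4`, `N = n^5`,
`t = m N + C N^(3/4)`: `t / M = m n + C n^(-1/4) ≤ m n + 1` for large `n`, and
`1 / (C' t^4) ≥ n^(-21)` for large `n`. -/
def S_POLY : Prop := ∀ (Ω : Type) [MeasureSpace Ω] [IsProbabilityMeasure (volume : Measure Ω)]
  (X : Sym2 (ℤ × ℤ) → Ω → ℝ), Iid X → ∀ (μ : Seminorm ℝ (ℝ × ℝ)),
  Good (fun ω v => D (env X ω) 0 v) μ → TC X μ → ∀ (y : ℝ × ℝ) (m : ℝ), MinDir μ y m →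
  ∀ᶠ n : ℕ in atTop, ∃ u : ℤ × ℤ, (n : ℝ) - 1 ≤ al y (em u) ∧
    (n : ℝ) ^ (-(21 : ℝ)) ≤ (volume : Measure Ω).real {ω | D (env X ω) 0 u < m * n + 1}

/-! ### the outer half -/

section
variable {Ω : Type} [MeasureSpace Ω]

/-- the outer event: the fattened cluster leaves `(1 + t ^ (-κ)) t` times the limit shape -/
def Lft (T : Ω → ℤ × ℤ → ℝ) (μ : Seminorm ℝ (ℝ × ℝ)) (κ t : ℝ) : Set Ω :=
  {ω | ¬ (Fat (T ω) t ⊆ ((1 + t ^ (-κ)) * t) • {x : ℝ × ℝ | μ x ≤ 1})}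

/-- lower tail at the scale `χ` -/
def LT (X : Sym2 (ℤ × ℤ) → Ω → ℝ) (μ : Seminorm ℝ (ℝ × ℝ)) (χ : ℝ) : Prop := ∀ q : ℝ, 0 < q →
  ∃ C : ℝ, 0 < C ∧ ∀ v : ℤ × ℤ, (volume : Measure Ω).real
    {ω | D (env X ω) 0 v < μ (em v) - C * (1 + μ (em v)) ^ χ} ≤ C * (1 + μ (em v)) ^ (-q)

end

/-- LTO. For `μ v` large put `t = μ v - 2 (μ v)^(1-κ)`. If `D 0 v ≤ t` then `em v ∈ Fat`, but
`μ v > t + t^(1-κ) = (1 + t^(-κ)) t`, so the outer event holds at time `t`; its probability is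
`≤ K t^(-q) ≤ K' (1 + μ v)^(-q)`. For `μ v ≤ M0` take `C ≥ (1+M0)^q`. -/
def S_LTO : Prop := ∀ (Ω : Type) [MeasureSpace Ω] [IsProbabilityMeasure (volume : Measure Ω)]
  (X : Sym2 (ℤ × ℤ) → Ω → ℝ), Iid X → ∀ (μ : Seminorm ℝ (ℝ × ℝ)), (∀ x, μ x = 0 → x = 0) →
  ∀ κ : ℝ, 0 < κ → κ < 1 →
  (∀ q : ℝ, 0 < q → Asymptotics.IsBigO atTop (fun t : ℝ => (volume : Measure Ω).real
    (Lft (fun ω v => D (env X ω) 0 v) μ κ t)) (fun t : ℝ => t ^ (-q))) → LT X μ (1 - κ)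

/-- OEX (from `S_GEO`, `S_LOW`, `S_TRL`). The exit estimate for the outer half. Let
`w = n^(3/5)`, `K = tube y (8 n) w`, `χ < χ' < 1/5`, `q > 0`, and let `u` satisfy
`n - 1 ≤ al y u`, `μ u ≤ m n + n^χ'`. Then `eu u ≤ n + n^χ'/m` and
`(cr y u)^2 = (eu u)^2 - (al y u)^2 ≤ n^(6/5)/4`, so `|cr y u| ≤ w/2` (large `n`).
Let `z ∈ bd K`. (a) If `z ∉ box (8n)` then `eu z ≥ 8 n`, `μ z ≥ 8 m n`, and by `S_LOW` with
`s = μ z/2`, `D 0 z ≥ μ z / 2 ≥ 4 m n ≥ m n + 1` but for an event of probability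
`≤ exp (1 - m n / 4)`; and `D z u ≥ 0` (`cGE`, `cAE`). (b) Otherwise `w < |cr y z|`,
`eu z ≤ 12 n + 2`, `eu z ≥ w`, `eu (u - z) ≥ |cr y z| - |cr y u| ≥ w / 2`; by `LT` (with a large
`q'`), `D 0 z ≥ μ z - C (1+μ z)^χ` and `D z u ≥ μ (u-z) - C (1 + μ (u-z))^χ` but for an event of
probability `≤ C (1 + m w/2)^(-q')·2`, and then `D 0 z + D z u ≥ m (eu z + eu (u-z)) - C' n^χ ≥
m √((al y u)^2 + (3w/2)^2) - C' n^χ ≥ m (al y u + w^2/(3 al y u)) - C' n^χ ≥ m n + 1` for large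
`n`, as `w^2 / (3 al y u) ≥ n^(1/5) / 4` and `al y u ≥ n - 1`. Union over `bd K` (at most
`4 (16 n + 1)^2` points). -/
def S_OEX : Prop := ∀ (Ω : Type) [MeasureSpace Ω] [IsProbabilityMeasure (volume : Measure Ω)]
  (X : Sym2 (ℤ × ℤ) → Ω → ℝ), Iid X → ∀ (μ : Seminorm ℝ (ℝ × ℝ)),
  Good (fun ω v => D (env X ω) 0 v) μ → ∀ (y : ℝ × ℝ) (m : ℝ), MinDir μ y m →
  ∀ χ χ' q : ℝ, 0 < χ → χ < χ' → χ' < 1 / 5 → 0 < q → LT X μ χ →
  ∀ᶠ n : ℕ in atTop, ∀ u : ℤ × ℤ, (n : ℝ) - 1 ≤ al y (em u) →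
    μ (em u) ≤ m * n + (n : ℝ) ^ χ' →
    (volume : Measure Ω).real {ω | ∃ z ∈ bd (tube y (8 * n) ((n : ℝ) ^ (3 / 5 : ℝ))),
      D (env X ω) 0 z + D (env X ω) z u < m * n + 1} ≤ (n : ℝ) ^ (-q)

/-- OUTF (from `S_GEO`, `S_CMD`, `S_EXO`, `S_POLY`, `S_OEX`). The lower tail cannot be at a scale
`χ < 1/5`. Let `χ < χ' < 1/5`, `u = u_n` from `S_POLY`. By `LT` (with `q = 22`)
`μ u - C (1+μ u)^χ ≤ m n + 1` for large `n` (otherwise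
`n^(-21) ≤ P (D 0 u < m n + 1) ≤ C (1 + μ u)^(-22)`, `μ u ≥ m (n-1)`), hence
`μ u ≤ m n + n^χ'`. With `K = tube y (8n) w`, `w = n^(3/5)`, `F = edg K`, `#F ≤ C n^(8/5)`,
`δ = n^(-4/5)`, `c = 1 - δ`: by `S_OEX` (`q = 22`), `S_EXO` with `t = m n + 1`,
`P (D (sc F c x) 0 u < c (m n + 1)) ≥ n^(-21) - n^(-22) ≥ n^(-21)/2`, so by `S_CMD`
`n^(-42)/4 ≤ (1/(1-δ^2))^#F P (D 0 u < c (m n + 1)) ≤ C P (D 0 u < c (m n + 1))`, and
`c (m n + 1) ≤ m n + 1 - m n^(1/5) ≤ μ u - C (1 + μ u)^χ` for large `n`; `LT` with `q = 43` gives a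
contradiction. -/
def S_OUTF : Prop := ∀ (Ω : Type) [MeasureSpace Ω] [IsProbabilityMeasure (volume : Measure Ω)]
  (X : Sym2 (ℤ × ℤ) → Ω → ℝ), Iid X → ∀ (μ : Seminorm ℝ (ℝ × ℝ)),
  Good (fun ω v => D (env X ω) 0 v) μ → TC X μ → ∀ (y : ℝ × ℝ) (m : ℝ), MinDir μ y m →
  ∀ χ : ℝ, 0 < χ → χ < 1 / 5 → ¬ LT X μ χ

/-! ### the inner half -/

/-- IEX (from `S_GEO`, `S_LOW`, `S_TRL`). The exit estimate for the inner half. Let
`w = n^(3/5)`, `K = tube y (8 n) w`, `χ = 1 - κ < χ' < 1/5`, `|u - n y| ≤ 1` in both coordinates.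
Let `y' = (-y.2, y.1)` (so `al y y' = 0`, `cr y y' = 1`) and let `z1±`, `z2±` be the roundings of
`14 n y ± w y'` and `-14 n y ± w y'`. By the hypothesis and `Good.one`,
(i) `P (D 0 v ≥ μ v + A (1+μ v)^χ + λ) ≤ exp (-(d λ / (A (1+μ v)^χ)))` for `λ ≥ 0`, and
(ii) `∫ |D 0 v - μ v| ≤ 2 (1+1/d) A (1+μ v)^χ`, so
`P (D 0 v < μ v - n^χ') ≤ C n^(χ-χ')` if `μ v ≤ C n` (Markov, `mk`).
(iii) By (i) and a union bound, with probability `→ 1` for all `z ∈ bd K` (at most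
`4 (16 n+1)^2` points) `D z z1± ≤ μ (z1± - z) + n^χ'` and `D z2± z ≤ μ (z - z2±) + n^χ'` (use
`cTIL` for the translations).
(iv) By (ii), with probability `→ 1`, `D 0 z1± ≥ μ z1± - n^χ'`, `D z2± u ≥ μ (u - z2±) - n^χ'`.
(v) By `S_LOW` as in `S_OEX` (a), with probability `→ 1`, `D 0 z ≥ 4 m n` for all `z ∈ bd K` not in
`box (8n)`.
Now let `z ∈ bd K ∩ box (8n)`; `|cr y z| ∈ (w, w+1]`, take the sign `±` of `cr y z`;
`|al y z| ≤ 12 n`. `z1 - z = (14 n - al y z) y + O(1)`, so `μ (z1 - z) ≤ m (14 n - al y z) + C`,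
and `μ (z - z2) ≤ m (14 n + al y z) + C`. By the triangle inequality
`D 0 z + D z u ≥ (D 0 z1 - D z z1) + (D z2 u - D z2 z) ≥
μ z1 + μ (u - z2) - 28 m n - 2 C - 4 n^χ'`, and
`μ z1 + μ (u - z2) ≥ m (eu z1 + eu (u - z2)) ≥ m √((29 n - 4)^2 + (2 w - 4)^2)
≥ 29 m n + m n^(1/5) / 100 - C` for large `n` (`w^2 = n^(6/5)`). -/
def S_IEX : Prop := ∀ (Ω : Type) [MeasureSpace Ω] [IsProbabilityMeasure (volume : Measure Ω)]
  (X : Sym2 (ℤ × ℤ) → Ω → ℝ), Iid X → ∀ (μ : Seminorm ℝ (ℝ × ℝ)),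
  Good (fun ω v => D (env X ω) 0 v) μ → ∀ (y : ℝ × ℝ) (m : ℝ), MinDir μ y m →
  ∀ κ A d : ℝ, 4 / 5 < κ → κ < 1 → 0 < A → 0 < d →
  (∀ v : ℤ × ℤ, (volume : Measure Ω).real
    {ω | μ (em v) + A * (1 + μ (em v)) ^ (1 - κ) ≤ D (env X ω) 0 v} ≤ Real.exp (-(1 + d))) →
  ∀ η : ℝ, 0 < η → ∀ᶠ n : ℕ in atTop, ∀ u : ℤ × ℤ, |(u.1 : ℝ) - n * y.1| ≤ 1 →
    |(u.2 : ℝ) - n * y.2| ≤ 1 →
    (volume : Measure Ω).real {ω | ∃ z ∈ bd (tube y (8 * n) ((n : ℝ) ^ (3 / 5 : ℝ))),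
      D (env X ω) 0 z + D (env X ω) z u < m * n + m / 200 * (n : ℝ) ^ (1 / 5 : ℝ)} ≤ η

/-- INNF (from `S_GEO`, `S_PMU`, `S_CMD`, `S_EXI`, `S_IEX`). Let `u` be the rounding of `n y`,
`K = tube y (8n) w`, `w = n^(3/5)`, `F = edg K`, `#F ≤ C n^(8/5)`, `δ = n^(-4/5)`, `c = 1 + δ`,
`ρ = m / 200`. By `S_PMU`, `S_IEX` (`η = 1/10`) and `S_EXI` with `t = m n + ρ n^(1/5)`: with
probability `≥ 1/e - 1/10 ≥ 1/4`,
`D (sc F c x) 0 u ≥ min (c μ u) (m n + ρ n^(1/5)) ≥ m n + ρ n^(1/5)` for large `n`, since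
`c μ u ≥ (1 + δ) m (n - 2) ≥ m n + m n^(1/5) - 4 m`. By `S_CMD`,
`1/16 ≤ (1/(1-δ^2))^#F P (m n + ρ n^(1/5) ≤ D 0 u) ≤ C P (m n + ρ n^(1/5) ≤ D 0 u)`. But
`m n + ρ n^(1/5) ≥ μ u + (ρ/2) n^(1/5)` for large `n` (`μ u ≤ m n + C`), so by Markov and
`∫ |D 0 u - μ u| ≤ 2 (1+1/d) A (1 + μ u)^(1-κ)` (`Good.one`) this probability tends to `0`. -/
def S_INNF : Prop := ∀ (Ω : Type) [MeasureSpace Ω] [IsProbabilityMeasure (volume : Measure Ω)]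
  (X : Sym2 (ℤ × ℤ) → Ω → ℝ), Iid X → ∀ (μ : Seminorm ℝ (ℝ × ℝ)),
  Good (fun ω v => D (env X ω) 0 v) μ → ∀ (y : ℝ × ℝ) (m : ℝ), MinDir μ y m →
  ∀ κ A d : ℝ, 4 / 5 < κ → κ < 1 → 0 < A → 0 < d →
  ¬ (∀ v : ℤ × ℤ, (volume : Measure Ω).real
    {ω | μ (em v) + A * (1 + μ (em v)) ^ (1 - κ) ≤ D (env X ω) 0 v} ≤ Real.exp (-(1 + d)))

end Run7.h943.FP
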